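import Pool.Agent.Helper49.LC.St

/-!
Project LC (MP_58b586_gt): module SWS, the set computation of the swindle.
-/

set_option autoImplicit false

namespace Pool.Agent.Helper49.LC

open Pool.Agent.Helper14.LK

variable {n : ℕ}

/-- membership in the infinite sum `α # β # α # β # ⋯` -/
def Mp (α β : EE n → WW n) (a : EE n) (q R : ℝ) (w : WW n) : Prop :=
  (∃ k, w ∈ DB a q R k ∧ Ti a q k w ∈ Set.range (if Even k then α else β)) ∨
  ((∀ k, w ∉ DB a q R k) ∧ w.2 = 0)

theorem Tk_snd (a : EE n) (q : ℝ) (k : ℕ) (v : WW n) : (Tk a q k v).2 = q ^ k • v.2 := by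
  simp [Tk, tm]

theorem tm_ti' (a : EE n) {s : ℝ} (hs : s ≠ 0) (w : WW n) : tm a s (ti a s w) = w := by
  unfold tm ti
  rw [smul_smul, mul_inv_cancel₀ hs, one_smul]
  abel

theorem ti_tm' (a : EE n) {s : ℝ} (hs : s ≠ 0) (w : WW n) : ti a s (tm a s w) = w := by
  unfold tm ti
  rw [add_sub_cancel_left, smul_smul, inv_mul_cancel₀ hs, one_smul]

theorem sws_loc (hSWG : StSWG) (hKNB : StKNB) (α β γ δ : EE n → WW n) (a : EE n) (q R : ℝ)
    (hγ : Kn γ 0 R) (hδ : Kn δ 0 R) (hR : 0 < R) (hq : 0 < q) (hq1 : q ≤ 1)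
    (ha : 4 * R / q < ‖a‖) (k : ℕ) (e1 : (if Even k then α else β) = γ)
    (e2 : (if Even (k + 1) then α else β) = δ) (w : WW n)
    (hw : ∀ i, i ≠ k → i ≠ k + 1 → w ∉ DB a q R i) :
    Ti a q k w ∈ Set.range (su γ (pc a q δ)) ↔ Mp α β a q R w := by
  obtain ⟨s1, s2, s3, s4, s5, s6, s7, s8, s9, s10, s11, s12⟩ := hSWG n a q R hR hq hq1 ha
  obtain ⟨k1, k2, k3, k4, k5, k6, k7⟩ := hKNB
  have hpc : Kn (pc a q δ) a (q * R) := by
    have := k2 n δ 0 a q R hδ hq
    simpa using this
  have h4 : 4 * R < ‖a‖ := by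
    have : 4 * R ≤ 4 * R / q := by
      rw [le_div_iff₀ hq]
      nlinarith
    linarith
  have hd : R + q * R < ‖(0 : EE n) - a‖ := by
    rw [zero_sub, norm_neg]; nlinarith
  rw [k5 n γ (pc a q δ) 0 a R (q * R) hγ hpc hd (Ti a q k w)]
  have h0 : ((0 : EE n), (0 : EE n)) = (0 : WW n) := rfl
  rw [h0, sub_zero]
  have e3 : ‖Ti a q k w‖ ≤ R ↔ w ∈ DB a q R k := (s8 k w).1.symm
  have e4 : ‖Ti a q k w - (a, 0)‖ ≤ q * R ↔ w ∈ DB a q R (k + 1) := (s8 k w).2.symm
  have e5 : Ti a q k w ∈ Set.range (pc a q δ) ↔ Ti a q (k + 1) w ∈ Set.range δ := by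
    rw [k3 n δ a q hq, (s6 k w).2]
    constructor
    · rintro ⟨v, hv, hv2⟩
      rw [← hv2, ti_tm' a hq.ne']
      exact hv
    · intro h
      exact ⟨_, h, tm_ti' a hq.ne' _⟩
  have e6 : (Ti a q k w).2 = 0 ↔ w.2 = 0 := by
    rw [(s5 k w).2.2, smul_eq_zero]
    constructor
    · rintro (h | h)
      · exact absurd h (inv_ne_zero (pow_pos hq k).ne')
      · exact h
    · exact Or.inr
  rw [← not_le, ← not_le, e3, e4, e5, e6]
  unfold Mp
  constructor
  · rintro (⟨h1, h2⟩ | ⟨h1, h2⟩ | ⟨h1, h2, h3⟩)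
    · exact Or.inl ⟨k, h1, by rw [e1]; exact h2⟩
    · exact Or.inl ⟨k + 1, h1, by rw [e2]; exact h2⟩
    · refine Or.inr ⟨fun i => ?_, h3⟩
      by_cases hi : i = k
      · rw [hi]; exact h1
      · by_cases hi' : i = k + 1
        · rw [hi']; exact h2
        · exact hw i hi hi'
  · rintro (⟨i, h1, h2⟩ | ⟨h1, h2⟩)
    · by_cases hi : i = k
      · rw [hi] at h1 h2
        rw [e1] at h2
        exact Or.inl ⟨h1, h2⟩
      · by_cases hi' : i = k + 1
        · rw [hi'] at h1 h2
          rw [e2] at h2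
          exact Or.inr (Or.inl ⟨h1, h2⟩)
        · exact absurd h1 (hw i hi hi')
    · exact Or.inr (Or.inr ⟨h1 k, h1 (k + 1), h2⟩)

theorem hSWS (hSWG : StSWG) (hKNB : StKNB) : StSWS := by
  intro n α β R hα hβ a q hq hq1 ha f f' g g' F Fi G Gi hf1 hf2 hg1 hg2 hfP hgP hF hG
  have hR := hα.pos
  obtain ⟨s1, s2, s3, s4, s5, s6, s7, s8, s9, s10, s11, s12⟩ := hSWG n a q R hR hq hq1 ha
  obtain ⟨k1, k2, k3, k4, k5, k6, k7⟩ := id hKNB
  have hTk0 : ∀ (k : ℕ) (v : WW n), (Tk a q k v).2 = 0 ↔ v.2 = 0 := by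
    intro k v
    rw [Tk_snd, smul_eq_zero]
    constructor
    · rintro (h | h)
      · exact absurd h (pow_pos hq k).ne'
      · exact h
    · exact Or.inr
  have hTi0 : ∀ w : WW n, Ti a q 0 w = w := by
    intro w
    have h0 : ((0 : EE n), (0 : EE n)) = (0 : WW n) := rfl
    simp [Ti, ti, ce, h0]
  have h00 : ∀ w : WW n, w ∈ DB a q R 0 ↔ ‖w‖ ≤ R := by
    intro w
    rw [(s8 0 w).1, hTi0]
  -- claim 1
  have c1 : ∀ w, (Fi w).2 = 0 ↔ Mp α β a q R w := by
    intro w
    by_cases hw : ∃ j, w ∈ VV a q R (2 * j + 0)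
    · obtain ⟨j, hj⟩ := hw
      rw [(hF.inFi j w hj).2, hTk0]
      have hloc := sws_loc hSWG hKNB α β α β a q R hα hβ hR hq hq1 ha (2 * j + 0)
        (by simp) (by simp [Nat.even_add_one]) w (by
          intro i hi1 hi2 hi
          obtain ⟨m, hm | hm⟩ := Nat.even_or_odd' i
          · have h1 := (s3 (2 * m)).1 (hm ▸ hi)
            rcases lt_trichotomy m j with h | h | h
            · exact Set.disjoint_left.1 (s1 (2 * m) (2 * j + 0) (by omega)) h1 hj
            · exact hi1 (by omega)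
            · exact Set.disjoint_left.1 (s1 (2 * j + 0) (2 * m) (by omega)) hj h1
          · have h1 := (s3 (2 * m)).2 (hm ▸ hi)
            rcases lt_trichotomy m j with h | h | h
            · exact Set.disjoint_left.1 (s1 (2 * m) (2 * j + 0) (by omega)) h1 hj
            · exact hi2 (by omega)
            · exact Set.disjoint_left.1 (s1 (2 * j + 0) (2 * m) (by omega)) hj h1)
      rw [← hloc, ← hfP]
      constructor
      · intro h
        exact ⟨_, h, hf2 _⟩
      · rintro ⟨v, hv, hv2⟩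
        rw [← hv2, hf1]
        exact hv
    · push Not at hw
      rw [(hF.out w hw).2]
      have hno : ∀ i, w ∉ DB a q R i := by
        intro i hi
        obtain ⟨m, hm | hm⟩ := Nat.even_or_odd' i
        · exact hw m ((s3 (2 * m)).1 (hm ▸ hi))
        · exact hw m ((s3 (2 * m)).2 (hm ▸ hi))
      constructor
      · intro h
        exact Or.inr ⟨hno, h⟩
      · rintro (⟨i, h, -⟩ | ⟨-, h⟩)
        · exact absurd h (hno i)
        · exact h
  -- claim 2
  have c2 : ∀ w, Gi w ∈ Set.range α ↔ Mp α β a q R w := by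
    intro w
    by_cases hw : ∃ j, w ∈ VV a q R (2 * j + 1)
    · obtain ⟨j, hj⟩ := hw
      obtain ⟨hj1, hj2⟩ := hG.inFi j w hj
      have hbig : R < ‖Gi w - ((0 : EE n), (0 : EE n))‖ := by
        have h0 : ((0 : EE n), (0 : EE n)) = (0 : WW n) := rfl
        rw [h0, sub_zero]
        exact s2 (2 * j + 1) (by omega) _ hj1
      rw [k6 n α 0 R hα _ hbig, hj2, hTk0]
      have hloc := sws_loc hSWG hKNB α β β α a q R hβ hα hR hq hq1 ha (2 * j + 1)
        (by simp [Nat.even_add_one]) (by simp [Nat.even_add_one]) w (by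
          intro i hi1 hi2 hi
          obtain ⟨m, hm | hm⟩ := Nat.even_or_odd' i
          · rcases Nat.eq_zero_or_pos m with h0 | h0
            · rw [hm, h0, Nat.mul_zero, h00] at hi
              exact absurd (s2 (2 * j + 1) (by omega) _ hj) (not_lt.2 hi)
            · obtain ⟨m', rfl⟩ : ∃ m', m = m' + 1 := ⟨m - 1, by omega⟩
              have h1 := (s3 (2 * m' + 1)).2 (show w ∈ DB a q R (2 * m' + 1 + 1) by
                rw [show 2 * m' + 1 + 1 = i by omega]; exact hi)
              rcases lt_trichotomy m' j with h | h | h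
              · exact Set.disjoint_left.1 (s1 (2 * m' + 1) (2 * j + 1) (by omega)) h1 hj
              · exact hi2 (by omega)
              · exact Set.disjoint_left.1 (s1 (2 * j + 1) (2 * m' + 1) (by omega)) hj h1
          · have h1 := (s3 (2 * m + 1)).1 (hm ▸ hi)
            rcases lt_trichotomy m j with h | h | h
            · exact Set.disjoint_left.1 (s1 (2 * m + 1) (2 * j + 1) (by omega)) h1 hj
            · exact hi1 (by omega)
            · exact Set.disjoint_left.1 (s1 (2 * j + 1) (2 * m + 1) (by omega)) hj h1)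
      rw [← hloc, ← hgP]
      constructor
      · intro h
        exact ⟨_, h, hg2 _⟩
      · rintro ⟨v, hv, hv2⟩
        rw [← hv2, hg1]
        exact hv
    · push Not at hw
      rw [(hG.out w hw).2]
      have hno : ∀ i, 1 ≤ i → w ∉ DB a q R i := by
        intro i hi1 hi
        obtain ⟨m, hm | hm⟩ := Nat.even_or_odd' i
        · obtain ⟨m', rfl⟩ : ∃ m', m = m' + 1 := ⟨m - 1, by omega⟩
          exact hw m' ((s3 (2 * m' + 1)).2 (show w ∈ DB a q R (2 * m' + 1 + 1) by
                rw [show 2 * m' + 1 + 1 = i by omega]; exact hi))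
        · exact hw m ((s3 (2 * m + 1)).1 (hm ▸ hi))
      have h0 : ((0 : EE n), (0 : EE n)) = (0 : WW n) := rfl
      by_cases hwR : ‖w‖ ≤ R
      · constructor
        · intro h
          exact Or.inl ⟨0, (h00 w).2 hwR, by rw [hTi0]; simpa using h⟩
        · rintro (⟨i, h, h'⟩ | ⟨h, -⟩)
          · rcases Nat.eq_zero_or_pos i with hi | hi
            · rw [hi, hTi0] at h'
              simpa using h'
            · exact absurd h (hno i hi)
          · exact absurd ((h00 w).2 hwR) (h 0)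
      · have h1 : R < ‖w - ((0 : EE n), (0 : EE n))‖ := by
          rw [h0, sub_zero]; exact not_le.1 hwR
        rw [k6 n α 0 R hα w h1]
        have hno' : ∀ i, w ∉ DB a q R i := by
          intro i
          rcases Nat.eq_zero_or_pos i with hi | hi
          · rw [hi, h00]; exact hwR
          · exact hno i hi
        constructor
        · intro h
          exact Or.inr ⟨hno', h⟩
        · rintro (⟨i, h, -⟩ | ⟨-, h⟩)
          · exact absurd h (hno' i)
          · exact h
  -- conclusion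
  ext v
  constructor
  · rintro ⟨w, ⟨u, hu, rfl⟩, rfl⟩
    rw [c2, ← c1, hF.left]
    exact hu
  · intro hv
    refine ⟨G v, ⟨Fi (G v), ?_, hF.right _⟩, hG.left v⟩
    show (Fi (G v)).2 = 0
    rw [c1, ← c2, hG.left]
    exact hv

end Pool.Agent.Helper49.LC
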