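import Pool.Agent.Helper49.LC.Fin
import Pool.Agent.Helper48.LK.M_PAR
import Pool.Agent.Helper57.LK.M_NEM
import Pool.Agent.Helper14.LK.M_FLB
import Pool.Agent.Helper89.LK.M_FLO
import Pool.Agent.Helper27.LK.M_PO0
import Pool.Agent.Helper79.LK.M_POI
import Pool.Agent.Helper9.LK.M_HAM
import Pool.Agent.Helper34.LE.M_LAG
import Pool.Agent.Helper34.LE.M_EXL
import Pool.Agent.Helper8.LE.M_IEA
import Pool.Agent.Helper6.LE.M_IET
import Pool.Agent.Helper34.LC.M_HFL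
import Pool.Agent.Helper37.LC.M_HMS
import Pool.Agent.Helper76.LC.M_GRP
import Pool.Agent.Helper82.LC.M_EQV
import Pool.Agent.Helper6.LC.M_LIE
import Pool.Agent.Helper41.LC.M_LIT
import Pool.Agent.Helper7.LC.M_KNB
import Pool.Agent.Helper16.LC.M_MOV
import Pool.Agent.Helper8.LC.M_COM
import Pool.Agent.Helper99.LC.M_LOC
import Pool.Agent.Helper80.LC.M_DAT
import Pool.Agent.Helper72.LC.M_SWG
import Pool.Agent.Helper5.LC.M_PRD
import Pool.Agent.Helper95.LC.M_IP1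
import Pool.Agent.Helper94.LC.M_IP2
import Pool.Agent.Helper75.LC.M_IP3
import Pool.Agent.Helper49.LC.M_SWS
import Pool.Agent.Helper42.LC.M_IN1
import Pool.Agent.Helper18.LC.M_IN3
import Pool.Agent.Helper54.LC.M_SIN
import Pool.Agent.Helper36.LC.M_TUB
import Pool.Agent.Helper67.LC.M_PRI
import Pool.Agent.Helper29.LC.M_VFW
import Pool.Agent.Helper97.LC.M_MOL
import Pool.Agent.Helper22.LC.M_WE1
import Pool.Agent.Helper41.LC.M_WE2
import Pool.Agent.Helper95.LC.M_WE3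
import Pool.Agent.Helper12.LC.M_C2I
import Pool.Agent.Helper21.LC.M_S2C
import Pool.Agent.Helper11.LC.M_H2C
import Pool.Agent.Helper24.LC.M_LNF
import Pool.Agent.Helper26.LC.M_THE
import Pool.Agent.Helper70.LC.M_DF1
import Pool.Agent.Helper33.LC.M_DF2
import Pool.Agent.Helper11.LC.M_RNG
import Pool.Agent.Helper22.LC.M_LIN
import Pool.Agent.Helper24.LC.M_LI2

/-!
Project LC (MP_58b586_gt): all modules together.
-/

set_option autoImplicit false

namespace Pool.Agent.Helper49.LC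

open Pool.Agent.Helper14.LK
open Pool.Agent.Helper14.LE (StLAG StEXL StIEA StIET)

theorem bPAR : StPAR := Pool.Agent.Helper48.LK.hPAR
theorem bFLB : StFLB := Pool.Agent.Helper14.LK.hFLB Pool.Agent.Helper57.LK.hNEM
theorem bFLO : StFLO := Pool.Agent.Helper89.LK.hFLO bFLB
theorem bPOI : StPOI := Pool.Agent.Helper79.LK.hPOI (Pool.Agent.Helper27.LK.hPO0 bPAR)
theorem bHAM : StHAM := Pool.Agent.Helper9.LK.hHAM bPOI
theorem bLAG : StLAG := Pool.Agent.Helper34.LE.hLAG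
theorem bEXL : StEXL := Pool.Agent.Helper34.LE.hEXL
theorem bIEA : StIEA := Pool.Agent.Helper8.LE.hIEA bLAG bEXL bPOI
theorem bIET : StIET := Pool.Agent.Helper6.LE.hIET bIEA bFLO

theorem aHFL : StHFL := Pool.Agent.Helper34.LC.hHFL bFLO
theorem aHMS : StHMS := Pool.Agent.Helper37.LC.hHMS aHFL
theorem aGRP : StGRP := Pool.Agent.Helper76.LC.hGRP
theorem aEQV : StEQV := Pool.Agent.Helper82.LC.hEQV aGRP aHMS bHAM
theorem aLIE : StLIE := Pool.Agent.Helper6.LC.hLIE bIEA bLAG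
theorem aLIT : StLIT := Pool.Agent.Helper41.LC.hLIT aLIE aHFL bFLO
theorem aKNB : StKNB := Pool.Agent.Helper7.LC.hKNB
theorem aMOV : StMOV := Pool.Agent.Helper16.LC.hMOV bIET aKNB aEQV
theorem aCOM : StCOM := Pool.Agent.Helper8.LC.hCOM aMOV aKNB aEQV
theorem aLOC : StLOC := Pool.Agent.Helper99.LC.hLOC aLIT aGRP aKNB aEQV
theorem aDAT : StDAT := Pool.Agent.Helper80.LC.hDAT aCOM aLOC aKNB
theorem aSWG : StSWG := Pool.Agent.Helper72.LC.hSWG
theorem aPRD : StPRD := Pool.Agent.Helper5.LC.hPRD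
theorem aIP1 : StIP1 := Pool.Agent.Helper95.LC.hIP1 aSWG aPRD aGRP
theorem aIP2 : StIP2 := Pool.Agent.Helper94.LC.hIP2 aSWG aPRD aGRP
theorem aIP3 : StIP3 := Pool.Agent.Helper75.LC.hIP3 aSWG aGRP
theorem aSWS : StSWS := Pool.Agent.Helper49.LC.hSWS aSWG aKNB
theorem aIN1 : StIN1 := Pool.Agent.Helper42.LC.hIN1 aDAT aIP1 aSWS aGRP
theorem aIN3 : StIN3 := Pool.Agent.Helper18.LC.hIN3 aDAT aIP2 aIP3 aSWS aGRP aEQV
theorem aSIN : StSIN := Pool.Agent.Helper54.LC.hSIN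
theorem aTUB : StTUB := Pool.Agent.Helper36.LC.hTUB
theorem aPRI : StPRI := Pool.Agent.Helper67.LC.hPRI bPOI
theorem aVFW : StVFW := Pool.Agent.Helper29.LC.hVFW
theorem aMOL : StMOL := Pool.Agent.Helper97.LC.hMOL
theorem aWE1 : StWE1 := Pool.Agent.Helper22.LC.hWE1 aTUB aPRI aVFW aMOL bFLO
theorem aWE2 : StWE2 := Pool.Agent.Helper41.LC.hWE2
theorem aWE3 : StWE3 := Pool.Agent.Helper95.LC.hWE3 aSIN
theorem aC2I : StC2I := Pool.Agent.Helper12.LC.hC2I aWE1 aWE2 aWE3 aSIN bIET aKNB aEQV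
theorem aS2C : StS2C := Pool.Agent.Helper21.LC.hS2C aSIN bIET aKNB
theorem aH2C : StH2C := Pool.Agent.Helper11.LC.hH2C aHMS aGRP
theorem aLNF : StLNF := Pool.Agent.Helper24.LC.hLNF
theorem aTHE : StTHE := Pool.Agent.Helper26.LC.hTHE bLAG bFLB
theorem aDF1 : StDF1 := Pool.Agent.Helper70.LC.hDF1
theorem aDF2 : StDF2 := Pool.Agent.Helper33.LC.hDF2
theorem aRNG : StRNG := Pool.Agent.Helper11.LC.hRNG
theorem aLIN : StLIN := Pool.Agent.Helper22.LC.hLIN aTHE aDF1 aDF2 aRNG bIET aEQV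
theorem aLI2 : StLI2 := Pool.Agent.Helper24.LC.hLI2 aLIN aLNF aCOM aKNB aEQV

end Pool.Agent.Helper49.LC
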