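import Pool.Agent.Helper14.LE.Basic

/-!
Project LC (MP_58b586_gt): local Lagrangian knots which are unknotted by homeomorphisms.  Definitions.

`EE n` is euclidean `ℝⁿ`, `WW n = EE n × EE n` is `ℝ²ⁿ` with points `(x, y)`; the norm of `WW n` is the maximum of the
euclidean norms of `x` and `y`.
-/

set_option autoImplicit false

open scoped ContDiff

namespace Pool.Agent.Helper49.LC

open Pool.Agent.Helper14.LK
open Pool.Agent.Helper14.LE (hd lt mk)

/-- a local Lagrangian knot, knotted only inside the closed ball with centre `(c, 0)` and radius `R` -/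
structure Kn {n : ℕ} (ι : EE n → WW n) (c : EE n) (R : ℝ) : Prop where
  pos : 0 < R
  sm : ContDiff ℝ ∞ ι
  iso : Isotropic ι
  imm : Immersive ι
  inj : Function.Injective ι
  far : ∀ x, R ≤ ‖x - c‖ → ι x = (x, 0)
  near : ∀ x, ‖x - c‖ ≤ R → ‖ι x - (c, 0)‖ ≤ R

/-- the similarity `w ↦ (a, 0) + s w` -/
noncomputable def tm {n : ℕ} (a : EE n) (s : ℝ) (w : WW n) : WW n := (a, 0) + s • w

/-- the inverse of `tm a s` -/
noncomputable def ti {n : ℕ} (a : EE n) (s : ℝ) (w : WW n) : WW n := s⁻¹ • (w - (a, 0))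

/-- the copy of the knot `ι` with centre `a` and scale `s`; its image is `tm a s '' range ι` -/
noncomputable def pc {n : ℕ} (a : EE n) (s : ℝ) (ι : EE n → WW n) (x : EE n) : WW n :=
  (a, 0) + s • ι (s⁻¹ • (x - a))

/-- the sum of two knots (used when the knotted parts are disjoint) -/
noncomputable def su {n : ℕ} (α β : EE n → WW n) (x : EE n) : WW n := α x + β x - (x, 0)

/-- a symplectic diffeomorphism `f` of `ℝ²ⁿ` with inverse `g` (no condition at infinity) -/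
structure SD {n : ℕ} (f g : WW n → WW n) : Prop where
  sm : ContDiff ℝ ∞ f
  smi : ContDiff ℝ ∞ g
  left : ∀ w, g (f w) = w
  right : ∀ w, f (g w) = w
  sy : ∀ w a b, om (fderiv ℝ f w a) (fderiv ℝ f w b) = om a b

/-- `f` (with inverse `g`) is the time one map of a smooth symplectic isotopy of `ℝ²ⁿ` supported in the closed ball
with centre `c` and radius `r` -/
def HB {n : ℕ} (c : WW n) (r : ℝ) (f g : WW n → WW n) : Prop :=
  ∃ Φ Φi : ℝ → WW n → WW n, ContDiff ℝ ∞ (Function.uncurry Φ) ∧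
    ContDiff ℝ ∞ (Function.uncurry Φi) ∧ (∀ t w, Φi t (Φ t w) = w) ∧ (∀ t w, Φ t (Φi t w) = w) ∧
    (∀ t w a b, om (fderiv ℝ (Φ t) w a) (fderiv ℝ (Φ t) w b) = om a b) ∧ (∀ w, Φ 0 w = w) ∧
    (∀ t w, r ≤ ‖w - c‖ → Φ t w = w) ∧ Φ 1 = f ∧ Φi 1 = g

/-- some time one map as in `HB` carries `A` onto `B` (equivalent to `HamIsotopic A B`) -/
def Eq1 {n : ℕ} (A B : Set (WW n)) : Prop :=
  ∃ (r : ℝ) (f g : WW n → WW n), HB (0 : WW n) r f g ∧ f '' A = B

/-- `L` is the image of a knot `α` for which some sum with a knot `β` is unknotted -/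
def Inv {n : ℕ} (L : Set (WW n)) : Prop :=
  ∃ (α β : EE n → WW n) (R : ℝ) (a : EE n), Set.range α = L ∧ Kn α 0 R ∧ Kn β 0 R ∧
    2 * R < ‖a‖ ∧ Eq1 (Plane n) (Set.range (su α (pc a 1 β)))

/-! ### the swindle -/

/-- the centre of the `k`-th copy: `(1 + q + ⋯ + q^(k-1)) a` -/
noncomputable def ce {n : ℕ} (a : EE n) (q : ℝ) (k : ℕ) : EE n := (∑ i ∈ Finset.range k, q ^ i) • a

/-- the `k`-th power of the similarity `w ↦ (a, 0) + q w` -/
noncomputable def Tk {n : ℕ} (a : EE n) (q : ℝ) (k : ℕ) : WW n → WW n := tm (ce a q k) (q ^ k)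

/-- its inverse -/
noncomputable def Ti {n : ℕ} (a : EE n) (q : ℝ) (k : ℕ) : WW n → WW n := ti (ce a q k) (q ^ k)

/-- the ball which contains the `k`-th and the `(k+1)`-st copy -/
def VV {n : ℕ} (a : EE n) (q R : ℝ) (k : ℕ) : Set (WW n) :=
  {w | ‖w - (ce a q k + (q ^ k / 2) • a, 0)‖ ≤ q ^ k * (‖a‖ / 2 + 2 * R)}

/-- the ball of the `k`-th copy -/
def DB {n : ℕ} (a : EE n) (q R : ℝ) (k : ℕ) : Set (WW n) :=
  {w | ‖w - (ce a q k, 0)‖ ≤ q ^ k * R}

/-- `F` (with inverse `Fi`) is the product of the conjugates of `f` (with inverse `f'`) by the powers `2 j + e` of the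
similarity `w ↦ (a, 0) + q w`, `j = 0, 1, 2, …` -/
structure IP {n : ℕ} (a : EE n) (q R : ℝ) (e : ℕ) (f f' F Fi : WW n → WW n) : Prop where
  left : ∀ w, Fi (F w) = w
  right : ∀ w, F (Fi w) = w
  inF : ∀ j, ∀ w ∈ VV a q R (2 * j + e),
    F w ∈ VV a q R (2 * j + e) ∧ F w = Tk a q (2 * j + e) (f (Ti a q (2 * j + e) w))
  inFi : ∀ j, ∀ w ∈ VV a q R (2 * j + e),
    Fi w ∈ VV a q R (2 * j + e) ∧ Fi w = Tk a q (2 * j + e) (f' (Ti a q (2 * j + e) w))
  out : ∀ w, (∀ j, w ∉ VV a q R (2 * j + e)) → F w = w ∧ Fi w = w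

/-! ### reflections -/

/-- `(x_n, y_n) ↦ (2 T - x_n, - y_n)`, the other coordinates fixed -/
noncomputable def rf {k : ℕ} (T : ℝ) (w : WW (k + 1)) : WW (k + 1) :=
  (mk (hd w.1, 2 * T - lt w.1), mk (hd w.2, -lt w.2))

/-- the mirror image of a knot under `(x_n, y_n) ↦ (- x_n, - y_n)` -/
noncomputable def mi {k : ℕ} (ι : EE (k + 1) → WW (k + 1)) (x : EE (k + 1)) : WW (k + 1) :=
  rf 0 (ι (mk (hd x, -lt x)))

end Pool.Agent.Helper49.LC
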