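import Pool.Agent.Helper14.LK.Defs

/-!
MP_58b586_gt: definitions for the results `HomeoUnknotting` and `LineProjection`.
-/

set_option autoImplicit false

open scoped ContDiff

namespace Pool.Agent.Helper49.LC

open Pool.Agent.Helper14.LK

/-- a local Lagrangian knot: a smooth Lagrangian embedding `ℝⁿ → ℝ²ⁿ`, standard at infinity (it is proper, so
injective immersions are embeddings) -/
structure Knot {n : ℕ} (ι : EE n → WW n) : Prop where
  smooth : ContDiff ℝ ∞ ι
  isotropic : Isotropic ι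
  immersive : Immersive ι
  injective : Function.Injective ι
  std : StdInfty ι

/-- the maximum of the euclidean norms of `x` and `y`, for `w = (x, y)` -/
noncomputable def nrm {n : ℕ} (w : WW n) : ℝ := ‖w‖

/-- `f` is smooth -/
def Smooth {n : ℕ} (f : WW n → WW n) : Prop := ContDiff ℝ ∞ f

/-- `f` is smooth near the point `w` -/
def SmoothAt {n : ℕ} (f : WW n → WW n) (w : WW n) : Prop := ContDiffAt ℝ ∞ f w

/-- the derivative of `f` at `w` in the direction `a` -/
noncomputable def dv {n : ℕ} (f : WW n → WW n) (w a : WW n) : WW n := fderiv ℝ f w a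

/-- the derivative of `f` at `w` preserves the symplectic form -/
def SymplAt {n : ℕ} (f : WW n → WW n) (w : WW n) : Prop :=
  ∀ a b, om (dv f w a) (dv f w b) = om a b

/-- `g` is the inverse of `f` -/
def Inverse {n : ℕ} (f g : WW n → WW n) : Prop := (∀ w, g (f w) = w) ∧ ∀ w, f (g w) = w

/-- `Ψ` is a symplectic diffeomorphism of `ℝ²ⁿ` (no condition at infinity) -/
def SymplDiffeo {n : ℕ} (Ψ : WW n → WW n) : Prop :=
  Smooth Ψ ∧ (∀ w, SymplAt Ψ w) ∧ ∃ Ψi, Smooth Ψi ∧ Inverse Ψ Ψi

/-- `Φ` is a homeomorphism of `ℝ²ⁿ` with inverse `Φi` -/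
def Homeo {n : ℕ} (Φ Φi : WW n → WW n) : Prop := Continuous Φ ∧ Continuous Φi ∧ Inverse Φ Φi

/-- the distance of `f` and `g` is smaller than `ε` at all points -/
def Close {n : ℕ} (ε : ℝ) (f g : WW n → WW n) : Prop := ∀ w, nrm (f w - g w) < ε

/-- `H` vanishes outside the ball of radius `R`, for all times -/
def VanishOff {n : ℕ} (R : ℝ) (H : ℝ → WW n → ℝ) : Prop := ∀ t w, R ≤ nrm w → H t w = 0

/-- `Φ` and its inverse `Φi` are uniform limits of time one maps of Hamiltonian isotopies whose Hamiltonians vanish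
outside the ball of radius `R`, respectively of the inverses of these maps (`Φi (φ 1 w)` is close to `w` at every point
`w`, that is, `Φi v` is close to `(φ 1)⁻¹ v` at every point `v`) -/
def HamLimit {n : ℕ} (R : ℝ) (Φ Φi : WW n → WW n) : Prop :=
  ∀ ε : ℝ, 0 < ε → ∃ H φ, IsHamIsotopy H φ ∧ VanishOff R H ∧ Close ε (φ 1) Φ ∧
    Close ε (fun w => Φi (φ 1 w)) (fun w => w)

/-- (i) `L` is the image of `ℝⁿ × 0` under a symplectic diffeomorphism of `ℝ²ⁿ` -/
def SymplUnknotted {n : ℕ} (L : Set (WW n)) : Prop := ∃ Ψ, SymplDiffeo Ψ ∧ Ψ '' Plane n = L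

/-- all points of the knot `κ` have distance less than `ε` from `L` -/
def Near {n : ℕ} (ε : ℝ) (κ : EE n → WW n) (L : Set (WW n)) : Prop :=
  ∀ x, ∃ w ∈ L, nrm (κ x - w) < ε

/-- (ii) every neighbourhood of `L` of constant size contains a knot which a compactly supported Hamiltonian isotopy
carries to `ℝⁿ × 0` -/
def LimitOfUnknots {n : ℕ} (L : Set (WW n)) : Prop :=
  ∀ ε : ℝ, 0 < ε → ∃ κ, Knot κ ∧ HamIsotopic (Plane n) (Set.range κ) ∧ Near ε κ L

/-- (iii) `L` is the image of `ℝⁿ × 0` under a homeomorphism `Φ`, supported in a ball, smooth and symplectic off one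
point, such that `Φ` is a uniform limit of time one maps of Hamiltonian isotopies supported in this ball, and the
inverse of `Φ` is the uniform limit of their inverses -/
def HomeoUnknotted {n : ℕ} (L : Set (WW n)) : Prop :=
  ∃ (Φ Φi : WW n → WW n) (p : WW n) (R : ℝ), Homeo Φ Φi ∧ (∀ w, R ≤ nrm w → Φ w = w) ∧
    (∀ w, w ≠ p → SmoothAt Φ w ∧ SymplAt Φ w) ∧ Φ '' Plane n = L ∧ HamLimit R Φ Φi

/-- the point `(x, 0)` -/
noncomputable def pla {n : ℕ} (x : EE n) : WW n := (x, 0)

/-- the knot `β` translated by `(a, 0)` -/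
noncomputable def translate {n : ℕ} (a : EE n) (β : EE n → WW n) (x : EE n) : WW n :=
  pla a + β (x - a)

/-- the connected sum: `α` is knotted only in the ball of radius `R` around `0`, `β` too, `2 R < ‖a‖`; the sum is `α`
near the first ball, the translate of `β` by `(a, 0)` near the ball around `(a, 0)`, and `(x, 0)` elsewhere -/
noncomputable def sumAt {n : ℕ} (a : EE n) (α β : EE n → WW n) (x : EE n) : WW n :=
  α x + translate a β x - pla x

/-- `ι` is knotted only inside the closed ball of radius `R` -/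
def KnottedIn {n : ℕ} (ι : EE n → WW n) (R : ℝ) : Prop :=
  0 < R ∧ (∀ x, R ≤ ‖x‖ → ι x = pla x) ∧ ∀ x, ‖x‖ ≤ R → nrm (ι x) ≤ R

/-- (iv) `L` is invertible: some connected sum `L # B` with a knot `B` is carried to `ℝⁿ × 0` by a compactly supported
Hamiltonian isotopy -/
def Invertible {n : ℕ} (L : Set (WW n)) : Prop :=
  ∃ (α β : EE n → WW n) (R : ℝ) (a : EE n), Knot α ∧ Knot β ∧ KnottedIn α R ∧ KnottedIn β R ∧
    2 * R < ‖a‖ ∧ Set.range α = L ∧ HamIsotopic (Plane n) (Set.range (sumAt a α β))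

end Pool.Agent.Helper49.LC
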