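import Pool.Agent.Helper49.LC.St
import Pool.Agent.Helper49.LC.FDefs

/-!
Project LC (MP_58b586_gt): assembly of the two theorems from the modules.
-/

set_option autoImplicit false

open scoped ContDiff

namespace Pool.Agent.Helper49.LC

open Pool.Agent.Helper14.LK

variable {n : ℕ}

theorem Kn.knot (hKNB : StKNB) {ι : EE n → WW n} {R : ℝ} (h : Kn ι 0 R) : Knot ι :=
  ⟨h.sm, h.iso, h.imm, h.inj, hKNB.2.2.2.2.2.2 n ι 0 R h⟩

theorem Kn.knottedIn {ι : EE n → WW n} {R : ℝ} (h : Kn ι 0 R) : KnottedIn ι R := by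
  refine ⟨h.pos, fun x hx => h.far x (by simpa using hx), fun x hx => ?_⟩
  have := h.near x (by simpa using hx)
  have h0 : ((0 : EE n), (0 : EE n)) = (0 : WW n) := rfl
  rw [h0, sub_zero] at this
  exact this

theorem kn_of {ι : EE n → WW n} {R : ℝ} (h : Knot ι) (h' : KnottedIn ι R) : Kn ι 0 R := by
  refine ⟨h'.1, h.smooth, h.isotropic, h.immersive, h.injective,
    fun x hx => h'.2.1 x (by simpa using hx), fun x hx => ?_⟩
  have h0 : ((0 : EE n), (0 : EE n)) = (0 : WW n) := rfl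
  rw [h0, sub_zero]
  exact h'.2.2 x (by simpa using hx)

theorem sumAt_eq (a : EE n) (α β : EE n → WW n) : sumAt a α β = su α (pc a 1 β) := by
  funext x
  simp [sumAt, translate, pla, su, pc]

theorem invertible_iff (hKNB : StKNB) (hEQV : StEQV) (hn : 1 ≤ n) (L : Set (WW n)) :
    Invertible L ↔ Inv L := by
  constructor
  · rintro ⟨α, β, R, a, h1, h2, h3, h4, h5, h6, h7⟩
    rw [sumAt_eq] at h7
    exact ⟨α, β, R, a, h6, kn_of h1 h3, kn_of h2 h4, h5, (hEQV.1 n hn _ _).1 h7⟩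
  · rintro ⟨α, β, R, a, h1, h2, h3, h4, h5⟩
    refine ⟨α, β, R, a, h2.knot hKNB, h3.knot hKNB, h2.knottedIn, h3.knottedIn, h4, h1, ?_⟩
    rw [sumAt_eq]
    exact (hEQV.1 n hn _ _).2 h5

/-- Theorem A -/
theorem thmA (hKNB : StKNB) (hEQV : StEQV) (hIN1 : StIN1) (hIN3 : StIN3) (hS2C : StS2C)
    (hH2C : StH2C) (hC2I : StC2I) (n : ℕ) (hn : 2 ≤ n) (ι : EE n → WW n) (hι : Knot ι) :
    [SymplUnknotted (Set.range ι), LimitOfUnknots (Set.range ι), HomeoUnknotted (Set.range ι),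
      Invertible (Set.range ι)].TFAE := by
  have hn1 : 1 ≤ n := by omega
  have conv : (∀ ε : ℝ, 0 < ε → ∃ κ : EE n → WW n, ContDiff ℝ ∞ κ ∧ Isotropic κ ∧ Immersive κ ∧
      Function.Injective κ ∧ StdInfty κ ∧ HamIsotopic (Plane n) (Set.range κ) ∧
      ∀ x, ∃ x', ‖κ x - ι x'‖ < ε) → LimitOfUnknots (Set.range ι) := by
    intro h ε hε
    obtain ⟨κ, k1, k2, k3, k4, k5, k6, k7⟩ := h ε hε
    refine ⟨κ, ⟨k1, k2, k3, k4, k5⟩, k6, fun x => ?_⟩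
    obtain ⟨x', hx'⟩ := k7 x
    exact ⟨ι x', ⟨x', rfl⟩, hx'⟩
  tfae_have 4 → 1 := by
    intro h
    obtain ⟨Ψ, Ψi, h1, h2⟩ := hIN1 n hn _ ((invertible_iff hKNB hEQV hn1 _).1 h)
    exact ⟨Ψ, ⟨h1.sm, h1.sy, Ψi, h1.smi, h1.left, h1.right⟩, h2⟩
  tfae_have 4 → 3 := by
    intro h
    obtain ⟨Φ, Φi, p, R, g1, g2, g3, g4, g5, g6, g7, g8⟩ :=
      hIN3 n hn _ ((invertible_iff hKNB hEQV hn1 _).1 h)
    exact ⟨Φ, Φi, p, R, ⟨g1, g2, g3, g4⟩, g5, g6, g7, g8⟩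
  tfae_have 1 → 2 := by
    rintro ⟨Ψ, ⟨h1, h5, Ψi, h2, h3, h4⟩, h6⟩
    exact conv (hS2C n hn ι hι.smooth hι.isotropic hι.immersive hι.injective hι.std Ψ Ψi
      ⟨h1, h2, h3, h4, h5⟩ h6)
  tfae_have 3 → 2 := by
    rintro ⟨Φ, Φi, p, R, -, -, -, h6, h7⟩
    refine conv (hH2C n ι Φ h6 ?_)
    intro ε hε
    obtain ⟨H, φ, g1, -, g3, -⟩ := h7 ε hε
    exact ⟨H, φ, g1, g3⟩
  tfae_have 2 → 4 := by
    intro h
    rw [invertible_iff hKNB hEQV hn1]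
    refine hC2I n hn ι hι.smooth hι.isotropic hι.immersive hι.injective hι.std ?_
    intro ε hε
    obtain ⟨κ, hk, k6, k7⟩ := h ε hε
    refine ⟨κ, hk.smooth, hk.isotropic, hk.immersive, hk.injective, hk.std, k6, fun x => ?_⟩
    obtain ⟨w, ⟨x', rfl⟩, hw⟩ := k7 x
    exact ⟨x', hw⟩
  tfae_finish

/-- Theorem B -/
theorem thmB (hKNB : StKNB) (hEQV : StEQV) (hIN1 : StIN1) (hIN3 : StIN3) (hS2C : StS2C)
    (hH2C : StH2C) (hC2I : StC2I) (hLI2 : StLI2) (n : ℕ) (hn : 2 ≤ n) (e : WW n) (he : e ≠ 0)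
    (ι : EE n → WW n) (h1 : ContDiff ℝ ∞ ι) (h2 : Isotropic ι) (h3 : StdInfty ι)
    (h4 : ∀ x u, fderiv ℝ ι x u ∈ Submodule.span ℝ {e} → u = 0)
    (h5 : ∀ x x', ι x - ι x' ∈ Submodule.span ℝ {e} → x = x') :
    SymplUnknotted (Set.range ι) ∧ HomeoUnknotted (Set.range ι) ∧ Invertible (Set.range ι) := by
  have hinv := hLI2 n hn e he ι h1 h2 h3 h4 h5
  have hk : Knot ι := by
    refine ⟨h1, h2, fun x u hu => h4 x u ?_, fun x x' hx => h5 x x' ?_, h3⟩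
    · rw [hu]; exact Submodule.zero_mem _
    · rw [hx, sub_self]; exact Submodule.zero_mem _
  have h := thmA hKNB hEQV hIN1 hIN3 hS2C hH2C hC2I n hn ι hk
  have h6 : Invertible (Set.range ι) := (invertible_iff hKNB hEQV (by omega) _).2 hinv
  exact ⟨(h.out 3 0).1 h6, (h.out 3 2).1 h6, h6⟩

end Pool.Agent.Helper49.LC
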