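import Pool.Agent.Helper49.LC.Defs
import Pool.Agent.Helper14.LE.St

/-!
Project LC (MP_58b586_gt): statements of the modules, with complete proofs on paper.

THEOREM A (`n ≥ 2`).  For the image `L` of a Lagrangian embedding `ι : ℝⁿ → ℝ²ⁿ`, standard at infinity, equivalent are:
(i) `L = Ψ (ℝⁿ × 0)` for a symplectic diffeomorphism `Ψ` of `ℝ²ⁿ` without condition at infinity;
(ii) every neighbourhood `{w | dist (w, L) < ε}` contains a knot `κ` which is Hamiltonian unknotted;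
(iii) `L = Φ (ℝⁿ × 0)` for a compactly supported homeomorphism `Φ` which is a uniform limit of Hamiltonian diffeomorphisms (also the inverses) and
is smooth and symplectic off one point;
(iv) `L` is invertible: some sum `L # B` with a knot `B` is unknotted.
THEOREM B.  All this holds if the projection of `ι` along ONE line is an injective immersion.

Base modules (proved, they may be imported or used as hypotheses): hPAR (Helper48/LK/M_PAR), hFLB (Helper14/LK/M_FLB), hFLO (Helper89/LK/M_FLO), hPOI (Helper79/LK/M_POI), hHAM (Helper9/LK/M_HAM), hMOS (Helper39/LK/M_MOS),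
hLAG hEXL (Helper34/LE/M_LAG, M_EXL), hIEA (Helper8/LE/M_IEA), hIET (Helper6/LE/M_IET), see Helper14/LK/St.lean, Helper14/LE/St.lean.
-/

set_option autoImplicit false

open scoped ContDiff

namespace Pool.Agent.Helper49.LC

open Pool.Agent.Helper14.LK
open Pool.Agent.Helper14.LE (hd lt mk StLAG StEXL StIEA StIET)

/-! ### Part A: Hamiltonian diffeomorphisms -/

/-- HFL (about 120 lines): the flow of a compactly supported Hamiltonian.  Hypothesis: hFLO.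
PROOF.  `uncurry X` is smooth with compact support, so Lipschitz (`ContDiff.lipschitzWith_of_hasCompactSupport`); StFLO gives `Φ, Φi`.  If `r ≤ ‖w‖` the constant curve `w` solves the equation (`X t w = 0`), so `Φ t w = w` (`ODE_solution_unique_univ`).
Symplectic: fix `w, a, b`, `Q t = om (DΦ_t(w) a) (DΦ_t(w) b)`, `Q 0 = om a b`.  `d/dt (DΦ_t(w) a) = DX_t(Φ_t w) (DΦ_t(w) a)` (second derivatives of the jointly smooth map `uncurry Φ` are symmetric; compare the same step in Helper39/LK/M_MOS.lean and Helper9/LK/M_HAM.lean).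
Differentiate `om (X t w) q = fderiv ℝ (H t) w q` in `w` in direction `p`: `om (DX_t(w) p) q = D²H_t(w)(p, q)`, symmetric in `p, q`.  So `Q' = om (DX p) q + om p (DX q) = om (DX p) q - om (DX q) p = 0`, with `p = DΦ a`, `q = DΦ b`.  `is_const_of_deriv_eq_zero`. -/
def StHFL : Prop := ∀ (n : ℕ) (H : ℝ → WW n → ℝ) (X : ℝ → WW n → WW n) (r : ℝ),
  ContDiff ℝ ∞ (Function.uncurry H) → ContDiff ℝ ∞ (Function.uncurry X) →
  HasCompactSupport (Function.uncurry X) → (∀ t w b, om (X t w) b = fderiv ℝ (H t) w b) →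
  (∀ t w, r ≤ ‖w‖ → X t w = 0) →
  ∃ Φ Φi : ℝ → WW n → WW n, ContDiff ℝ ∞ (Function.uncurry Φ) ∧
    ContDiff ℝ ∞ (Function.uncurry Φi) ∧ (∀ t w, Φi t (Φ t w) = w) ∧ (∀ t w, Φ t (Φi t w) = w) ∧
    (∀ t w a b, om (fderiv ℝ (Φ t) w a) (fderiv ℝ (Φ t) w b) = om a b) ∧ (∀ w, Φ 0 w = w) ∧
    (∀ t w, r ≤ ‖w‖ → Φ t w = w) ∧ ∀ t w, HasDerivAt (fun s => Φ s w) (X t (Φ t w)) t

/-- HMS (about 120 lines): the time one map of a compactly supported Hamiltonian isotopy is a smooth symplectic diffeomorphism, joined to the identity.  Hypothesis: hHFL.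
PROOF.  `C ⊆ closedBall 0 r`, `0 < r`, with strict inclusion (`H t w = 0` for `r ≤ ‖w‖`; enlarge `r` by one).  `τ = Real.smoothTransition`.  `H' t w = deriv τ t * H (τ t) w` is smooth; it vanishes if `t ∉ [0,1]` (`τ` is constant near such `t`) and if `r ≤ ‖w‖`.  Its Hamiltonian vector field
`X' t w = (dual⁻¹ (b ↦ DH'_t(w) (0, b)), - dual⁻¹ (b ↦ DH'_t(w) (b, 0)))` (`InnerProductSpace.toDual ℝ (EE n)`, see Helper8/LE/M_IEA.lean, which has this construction) is smooth with compact support and vanishes for `r + 1 ≤ ‖w‖`.  StHFL gives `Φ, Φi`.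
`s ↦ φ (τ s) w` satisfies the same equation: `HasDerivAt (fun s => φ (τ s) w) (deriv τ t • v) t` with `om v b = fderiv ℝ (H (τ t)) (φ (τ t) w) b` (chain rule `HasDerivAt.scomp`), and `deriv τ t • v = X' t (φ (τ t) w)` by nondegeneracy (`eq_of_om_eq` in Helper14/LK/Basic.lean).  Uniqueness: `φ (τ t) w = Φ t w`; `t = 1`: `τ 1 = 1`, so `Φ 1 = φ 1`. -/
def StHMS : Prop := ∀ (n : ℕ) (H : ℝ → WW n → ℝ) (φ : ℝ → WW n → WW n), IsHamIsotopy H φ →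
  ∃ (r : ℝ) (g : WW n → WW n), 0 < r ∧ HB (0 : WW n) r (φ 1) g

/-- GRP (about 250 lines): group properties of the class `HB`.
PROOF.  (1) constant family.  (2) clear.  (3) `Φ t ∘ Φ' t` with inverse `Φi' t ∘ Φi t`; chain rule; support: `Φ' t w = w`, then `Φ t w = w`.  (4) the family `Φi` with inverse `Φ`: if `r ≤ ‖w - c‖` then `Φ t w = w`, so `Φi t w = w`.  Symplectic: `DΦ_t (Φi w) (DΦi_t(w) a) = a` (derivative of `Φ t (Φi t w) = w`), so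
`om (DΦi a) (DΦi b) = om (DΦ (DΦi a)) (DΦ (DΦi b)) = om a b`.  (5) `Φ' t w = tm a s (Φ t (ti a s w))`; derivative `s • DΦ_t (s⁻¹ • b)`, `om` is bilinear; `tm a s c - ` …: `w - tm a s c = s • (ti a s w - c)`, so `s * r ≤ ‖w - tm a s c‖` iff `r ≤ ‖ti a s w - c‖`; `ti a s (tm a s w) = w`, `tm a s (ti a s w) = w`.
(6) `SD` from the family at time `1` (`fderiv`s of `Φ 1`; smoothness of `Φ 1` from `uncurry Φ`).  Ball: if `‖w - c‖ ≤ r` and `r < ‖f w - c‖` then `f (f w) = f w`, so `f w = w` (apply `g`), contradiction.  Same for `g` by (4) (or for all times: `Φ t` maps the ball into itself).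
(7) `M` linear symplectic equivalence: `Φ' t w = M (Φ t (M⁻¹ w))`, support: if `‖M‖ * r < ‖w‖` (or `‖M‖ * |r| + 1 ≤ ‖w‖`) then `r ≤ ‖M⁻¹ w‖` since `‖w‖ ≤ ‖M‖ ‖M⁻¹ w‖`. -/
def StGRP : Prop :=
  (∀ (n : ℕ) (c : WW n) (r : ℝ), HB c r (fun w => w) (fun w => w)) ∧
  (∀ (n : ℕ) (c c' : WW n) (r r' : ℝ) (f g : WW n → WW n), HB c r f g →
    (∀ w, r' ≤ ‖w - c'‖ → r ≤ ‖w - c‖) → HB c' r' f g) ∧
  (∀ (n : ℕ) (c : WW n) (r : ℝ) (f g f' g' : WW n → WW n), HB c r f g → HB c r f' g' →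
    HB c r (fun w => f (f' w)) (fun w => g' (g w))) ∧
  (∀ (n : ℕ) (c : WW n) (r : ℝ) (f g : WW n → WW n), HB c r f g → HB c r g f) ∧
  (∀ (n : ℕ) (c : WW n) (r : ℝ) (f g : WW n → WW n) (a : EE n) (s : ℝ), 0 < s → HB c r f g →
    HB (tm a s c) (s * r) (fun w => tm a s (f (ti a s w))) (fun w => tm a s (g (ti a s w)))) ∧
  (∀ (n : ℕ) (c : WW n) (r : ℝ) (f g : WW n → WW n), HB c r f g → SD f g ∧
    (∀ w, r ≤ ‖w - c‖ → f w = w ∧ g w = w) ∧ ∀ w, ‖w - c‖ ≤ r → ‖f w - c‖ ≤ r ∧ ‖g w - c‖ ≤ r) ∧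
  (∀ (n : ℕ) (r : ℝ) (f g : WW n → WW n) (M : WW n ≃L[ℝ] WW n), (∀ a b, om (M a) (M b) = om a b) →
    HB (0 : WW n) r f g → ∃ r' : ℝ, HB (0 : WW n) r' (fun w => M (f (M.symm w)))
      (fun w => M (g (M.symm w))))

/-- EQV (about 150 lines): the equivalence relation.  Hypotheses: hGRP hHMS hHAM (`StHAM` of project LK).
PROOF.  (1) from left to right: StHMS.  From right to left, and (6): the family `Φ` of `HB 0 r f g` satisfies the hypotheses of StHAM, which gives `H` with `H t w = 0` for `r ≤ ‖w‖`; so `IsHamIsotopy H Φ` (`C = closedBall 0 r`, compact in finite dimension).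
(2) GRP (1).  (3) `g '' B = A`, GRP (4).  (4) enlarge both radii to `max` (GRP (2) with centre `0`), GRP (3).  (5) GRP (5): `tm a s '' B = (tm a s ∘ f ∘ ti a s) '' (tm a s '' A)`; the ball with centre `tm a s 0 = (a, 0)` and radius `s * r` is contained in the ball with centre `0` and radius `s * r + ‖a‖` (GRP (2)).
(7) `HB c r f g` gives `HB 0 (r + ‖c‖) f g` (GRP (2)).  (8) GRP (7). -/
def StEQV : Prop :=
  (∀ (n : ℕ), 1 ≤ n → ∀ A B : Set (WW n), HamIsotopic A B ↔ Eq1 A B) ∧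
  (∀ (n : ℕ) (A : Set (WW n)), Eq1 A A) ∧
  (∀ (n : ℕ) (A B : Set (WW n)), Eq1 A B → Eq1 B A) ∧
  (∀ (n : ℕ) (A B C : Set (WW n)), Eq1 A B → Eq1 B C → Eq1 A C) ∧
  (∀ (n : ℕ) (A B : Set (WW n)) (a : EE n) (s : ℝ), 0 < s → Eq1 A B →
    Eq1 (tm a s '' A) (tm a s '' B)) ∧
  (∀ (n : ℕ), 1 ≤ n → ∀ (r : ℝ) (f g : WW n → WW n), HB (0 : WW n) r f g →
    ∃ (H : ℝ → WW n → ℝ) (φ : ℝ → WW n → WW n), IsHamIsotopy H φ ∧
      (∀ t w, r ≤ ‖w‖ → H t w = 0) ∧ φ 1 = f) ∧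
  (∀ (n : ℕ) (c : WW n) (r : ℝ) (f g : WW n → WW n) (A : Set (WW n)), HB c r f g →
    Eq1 A (f '' A)) ∧
  (∀ (n : ℕ) (A B : Set (WW n)) (M : WW n ≃L[ℝ] WW n), (∀ a b, om (M a) (M b) = om a b) →
    Eq1 A B → Eq1 (M '' A) (M '' B))

/-- LIE (about 250 lines): localized version of StIEA: the Hamiltonian of an isotopy of knots which are knotted only inside the ball of radius `R` can be supported in the ball of radius `r > R`.  Hypotheses: hIEA hLAG.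
PROOF.  StIEA gives `H₀, X₀, u₀`.  Choose `R < R' < r'' < r` and a smooth bump `b : EE n → ℝ` (`ContDiffBump`, `rIn = R'`, `rOut = r''`), `χ (x, y) = b x * b y`: `χ = 1` for `‖w‖ ≤ R'`, `χ w = 0` for `r'' ≤ ‖w‖`.  `H t w = χ w * H₀ t w`,
`X = χ • X₀ + H₀ • Xχ`, where `Xχ` is the Hamiltonian vector field of `χ` (explicit formula as in Helper8/LE/M_IEA.lean), so `om (X t w) b = fderiv ℝ (H t) w b`; `X t w = 0` for `r ≤ ‖w‖` (`χ = 0` near `w`); `uncurry X` has compact support.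
CLAIM: `om (X t (ι t x) - ∂_t ι t x) (Dι_t(x) v) = 0` for all `t, x, v`.  From StIEA and isotropy: `om (∂_t ι) (Dι v) = om (X₀ t (ι t x)) (Dι v) = D(H₀_t ∘ ι_t)(x) v`, and `om (X t (ι t x)) (Dι v) = D(H_t ∘ ι_t)(x) v`.  If `‖x‖ ≤ R` then `‖ι t x‖ ≤ R < R'`, `H_t = H₀_t` near `ι t x`, and the two derivatives agree.
If `R < ‖x‖` then `ι s x' = (x', 0)` for all `s` and all `x'` near `x`, so `∂_t ι t x = 0` and `D(H₀_t ∘ ι_t) = 0` at `x`; so the function `x' ↦ H₀ t (x', 0)` has zero derivative on `{R < ‖x'‖}`, which is open and preconnected (`preconn` in Helper79/LK/M_POI.lean; `n ≥ 2`), and it vanishes for large `x'` (compact support of `uncurry H₀`); so it vanishes on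
`{R < ‖x'‖}`, `H_t ∘ ι_t` vanishes near `x` too, and its derivative is zero.
StLAG (2) with `E = ℝ × EE n`, `A (t, x) = fderiv ℝ (ι t) x`, `b (t, x) = X t (ι t x) - ∂_t ι t x` gives a smooth `u` with `b = A u`.  Compact support of `u`: as in step (4) of StIEA (`u = 0` where `b = 0`; `b t x = 0` if `t ∉ [0,1]` and `(t, ι t x) ∉ tsupport X`, or if `R < ‖x‖` and `(t, ι t x) ∉ tsupport X`; for `‖x‖ ≥ R`, `‖ι t x‖ = ‖x‖`). -/
def StLIE : Prop := ∀ (n : ℕ), 2 ≤ n → ∀ (ι : ℝ → EE n → WW n) (R r : ℝ), 0 < R → R < r →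
  ContDiff ℝ ∞ (Function.uncurry ι) → (∀ t, Isotropic (ι t)) → (∀ t, Immersive (ι t)) →
  (∀ t, Function.Injective (ι t)) → (∀ t x, R ≤ ‖x‖ → ι t x = (x, 0)) →
  (∀ t x, ‖x‖ ≤ R → ‖ι t x‖ ≤ R) →
  (∀ t x, t ∉ Set.Icc (0 : ℝ) 1 → deriv (fun s => ι s x) t = 0) →
  ∃ (H : ℝ → WW n → ℝ) (X : ℝ → WW n → WW n) (u : ℝ → EE n → EE n),
    ContDiff ℝ ∞ (Function.uncurry H) ∧
    ContDiff ℝ ∞ (Function.uncurry X) ∧ HasCompactSupport (Function.uncurry X) ∧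
    ContDiff ℝ ∞ (Function.uncurry u) ∧ HasCompactSupport (Function.uncurry u) ∧
    (∀ t w b, om (X t w) b = fderiv ℝ (H t) w b) ∧ (∀ t w, r ≤ ‖w‖ → X t w = 0) ∧
    ∀ t x, X t (ι t x) = deriv (fun s => ι s x) t + fderiv ℝ (ι t) x (u t x)

/-- LIT (about 150 lines): localized isotopy extension.  Hypotheses: hLIE hHFL hFLO.
PROOF.  As StIET (Helper6/LE/M_IET.lean): `ι' t = ι (smoothTransition t)` satisfies the hypotheses of StLIE (`Kn (ι t) 0 R` for `t ∈ [0,1]`; `x - 0 = x`).  Take `H, X, u`, StHFL gives `Φ, Φi`, StFLO gives the flow `g` of `u` (Lipschitz) with inverse.  `t ↦ ι' t (g t x)` solves `z' = X t z`, so `Φ t (ι' 0 x) = ι' t (g t x)`; `g 1` is surjective.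
`f = Φ 1`, `f '' range (ι 0) = range (ι 1)`. -/
def StLIT : Prop := ∀ (n : ℕ), 2 ≤ n → ∀ (ι : ℝ → EE n → WW n) (R r : ℝ), R < r →
  ContDiff ℝ ∞ (Function.uncurry ι) → (∀ t ∈ Set.Icc (0 : ℝ) 1, Kn (ι t) 0 R) →
  ∃ f g : WW n → WW n, HB (0 : WW n) r f g ∧ f '' Set.range (ι 0) = Set.range (ι 1)

/-! ### Part B: sums -/

/-- KNB (about 250 lines): elementary facts about knots, copies and sums.
PROOF.  (1) StdInfty gives `R₀`; `ι` is bounded on `closedBall 0 |R₀|` (compact) by `B`; `R = |R₀| + |B| + 1`; for `R' ≥ R`, `‖x‖ ≤ R'`: `‖ι x‖ ≤ B ≤ R'` or `ι x = (x, 0)`.  (2) `pc a s ι x = (a, 0) + s • ι (s⁻¹ • (x - a))`, `‖s⁻¹ • (x - a) - c‖ = s⁻¹ ‖x - (a + s • c)‖`; derivative `Dι(…) u` (`s • s⁻¹ = 1`).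
(3) `x ↦ s⁻¹ • (x - a)` is surjective.  (4) Everywhere `R < ‖x - c‖` or `R' < ‖x - c'‖` (otherwise `‖c - c'‖ ≤ R + R'`), and both are open conditions under which `su α β = β` respectively `su α β = α` near `x`; so `su α β` is isotropic and immersive.
Injective: `su α β x` lies in the ball `‖w - (c', 0)‖ ≤ R'` iff `‖x - c'‖ ≤ R'` (if `R' < ‖x - c'‖` then `su α β x = α x` is `(x, 0)` or lies in the ball `‖w - (c, 0)‖ ≤ R`, disjoint from the other one; `‖(x, 0) - (c', 0)‖ = ‖x - c'‖`).  On `{‖x - c'‖ ≤ R'}` it is `β x`, on the complement it is `α x`.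
`far`: if `R'' ≤ ‖x - c''‖` then `R ≤ ‖x - c‖` and `R' ≤ ‖x - c'‖`.  `near`: three cases `‖x - c‖ ≤ R`, `‖x - c'‖ ≤ R'`, else `su α β x = (x, 0)`.
(5) the same case distinction.  For `⊇`: if `w = α x`, `‖w - (c, 0)‖ ≤ R` then `‖x - c‖ ≤ R` (otherwise `w = (x, 0)`), so `R' < ‖x - c'‖` and `su α β x = α x`.  (6) `R < ‖w - (c, 0)‖`: if `w = α x` then `R < ‖x - c‖` by `near`, so `w = (x, 0)`; if `w = (x, 0)` then `R < ‖x - c‖`, so `w = α x`.  (7) `R' < ‖x - c‖` gives `ι x = (x, 0)`. -/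
def StKNB : Prop :=
  (∀ (n : ℕ) (ι : EE n → WW n), ContDiff ℝ ∞ ι → Isotropic ι → Immersive ι → Function.Injective ι →
    StdInfty ι → ∃ R : ℝ, ∀ R' : ℝ, R ≤ R' → Kn ι 0 R') ∧
  (∀ (n : ℕ) (ι : EE n → WW n) (c a : EE n) (s R : ℝ), Kn ι c R → 0 < s →
    Kn (pc a s ι) (a + s • c) (s * R)) ∧
  (∀ (n : ℕ) (ι : EE n → WW n) (a : EE n) (s : ℝ), 0 < s →
    Set.range (pc a s ι) = tm a s '' Set.range ι) ∧
  (∀ (n : ℕ) (α β : EE n → WW n) (c c' c'' : EE n) (R R' R'' : ℝ), Kn α c R → Kn β c' R' →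
    R + R' < ‖c - c'‖ → ‖c - c''‖ + R ≤ R'' → ‖c' - c''‖ + R' ≤ R'' → Kn (su α β) c'' R'') ∧
  (∀ (n : ℕ) (α β : EE n → WW n) (c c' : EE n) (R R' : ℝ), Kn α c R → Kn β c' R' →
    R + R' < ‖c - c'‖ → ∀ w, w ∈ Set.range (su α β) ↔
      (‖w - (c, 0)‖ ≤ R ∧ w ∈ Set.range α) ∨ (‖w - (c', 0)‖ ≤ R' ∧ w ∈ Set.range β) ∨
      (R < ‖w - (c, 0)‖ ∧ R' < ‖w - (c', 0)‖ ∧ w.2 = 0)) ∧
  (∀ (n : ℕ) (α : EE n → WW n) (c : EE n) (R : ℝ), Kn α c R → ∀ w, R < ‖w - (c, 0)‖ →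
    (w ∈ Set.range α ↔ w.2 = 0)) ∧
  (∀ (n : ℕ) (ι : EE n → WW n) (c : EE n) (R : ℝ), Kn ι c R → StdInfty ι)

/-- MOV (about 150 lines): moving the second summand.  Hypotheses: hIET hKNB hEQV.
PROOF.  `τ = Real.smoothTransition` (values in `[0,1]`, `τ 0 = 0`, `τ 1 = 1`), `c t = (1 - τ t) • c₀ + τ t • c₁`, `s t = (1 - τ t) * s₀ + τ t * s₁ > 0`, `ι t = su α (pc (c t) (s t) β)`: jointly smooth (`(s t)⁻¹` is smooth since `s t ≠ 0`).  By KNB (2) (`c = 0`), `Kn (pc (c t) (s t) β) (c t) (s t * R')`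
(rewrite `c t + s t • 0`), and KNB (4) with `c'' = 0`, `R'' = R + ‖c₀‖ + ‖c₁‖ + (s₀ + s₁) * R'` (independent of `t`) gives `Kn (ι t) 0 R''`.  StIET: `HamIsotopic (range (ι 0)) (range (ι 1))`, then EQV (1). -/
def StMOV : Prop := ∀ (n : ℕ), 2 ≤ n → ∀ (α β : EE n → WW n) (R R' : ℝ), Kn α 0 R → Kn β 0 R' →
  ∀ (c₀ c₁ : EE n) (s₀ s₁ : ℝ), 0 < s₀ → 0 < s₁ →
  (∀ t ∈ Set.Icc (0 : ℝ) 1, R + ((1 - t) * s₀ + t * s₁) * R' < ‖(1 - t) • c₀ + t • c₁‖) →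
  Eq1 (Set.range (su α (pc c₀ s₀ β))) (Set.range (su α (pc c₁ s₁ β)))

/-- COM (about 200 lines): the sum does not depend on the position and on the scale, and it is commutative.  Hypotheses: hMOV hKNB hEQV.
PROOF.  Write `S a s = range (su α (pc a s β))`.  (1) `Eq1 (S a s) (S a' s')` whenever `R + s R' < ‖a‖`, `R + s' R' < ‖a'‖`, `0 < s, s'`.  First let `0 ∉ segment a a'` (`∀ t ∈ [0,1], (1-t) • a + t • a' ≠ 0`): by compactness the norm is at least some `m > 0` on the segment.  Choose `K ≥ 1` with `R + (s + s') R' < K * m` (so also `< K ‖a'‖`).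
Four moves (StMOV): `(a, s) → (K • a, s)` (norm at least `‖a‖` on the segment), `(K • a, s) → (K • a', s)` (norm at least `K m`), `(K • a', s) → (K • a', s')`, `(K • a', s') → (a', s')`; EQV (4).  In general choose `v` outside of the line `ℝ a` (`n ≥ 2`), and if `0 ∈ segment a a'` then `a' = - μ a` (`μ ≥ 0`; `a, a' ≠ 0`), so neither `segment a v'` nor
`segment v' a'` contains `0`, where `v' = M • v` is a large multiple (`R + s R' < ‖v'‖`): go `(a, s) → (v', s) → (a', s')`.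
(2) `ti a s = tm (- s⁻¹ • a) s⁻¹` (as maps: `s⁻¹ • (w - (a, 0))`).  It maps `Plane n` onto itself and `S a s` onto `range (su (pc (- s⁻¹ • a) s⁻¹ α) β)` (pointwise: `ti a s (su α (pc a s β) x) = su (pc (- s⁻¹ • a) s⁻¹ α) β (s⁻¹ • (x - a))`, linear algebra), which is `range (su β (pc (- s⁻¹ • a) s⁻¹ α))` since `su` is commutative.  EQV (5): `Eq1 Plane (…)`.
`R' + s⁻¹ R < ‖- s⁻¹ • a‖`, so (1) with the roles of `α, β` exchanged gives the claim for all `(a', s')`. -/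
def StCOM : Prop := ∀ (n : ℕ), 2 ≤ n → ∀ (α β : EE n → WW n) (R R' : ℝ), Kn α 0 R → Kn β 0 R' →
  ∀ (a : EE n) (s : ℝ), 0 < s → R + s * R' < ‖a‖ →
  Eq1 (Plane n) (Set.range (su α (pc a s β))) → ∀ (a' : EE n) (s' : ℝ), 0 < s' →
  (R + s' * R' < ‖a'‖ → Eq1 (Plane n) (Set.range (su α (pc a' s' β)))) ∧
  (R' + s' * R < ‖a'‖ → Eq1 (Plane n) (Set.range (su β (pc a' s' α))))

/-- LOC (about 200 lines): an unknotted knot is unknotted inside any larger concentric ball.  Hypotheses: hLIT hGRP hKNB hEQV.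
PROOF.  First `c = 0`.  `Eq1` gives `HB 0 r₁ f₀ g₀` with family `Φ, Φi`, `f₀ '' Plane = range κ`; enlarge `r₁` so that `R ≤ r₁` (GRP (2)).  `λ = R / r₁ ∈ (0, 1]`.  Every `Φ t` maps the ball of radius `r₁` into itself (if `‖w‖ ≤ r₁ < ‖Φ t w‖` then `Φ t (Φ t w) = Φ t w`, so `Φ t w = w`).  `ι t x = λ • Φ t (λ⁻¹ • x, 0)` satisfies `Kn (ι t) 0 R`
(smooth, isotropic since `Φ t` is symplectic and `λ • λ⁻¹ = 1`; `R ≤ ‖x‖` iff `r₁ ≤ ‖λ⁻¹ • x‖`).  StLIT: `HB 0 r f₁ g₁`, `f₁ '' Plane = λ • range κ` (`range (ι 0) = Plane`, `range (ι 1) = λ • (f₀ '' Plane)`).  Second isotopy: `μ t = (1 - τ t) λ + τ t` (`τ = smoothTransition`, `μ t ∈ [λ, 1]`), `ι' t = pc 0 (μ t) κ`, that is `x ↦ μ t • κ ((μ t)⁻¹ • x)`: `Kn (ι' t) 0 R` because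
`Kn (ι' t) 0 (μ t * R)` (KNB (2)) and `μ t ≤ 1` (for `μ t R ≤ ‖x‖ ≤ R`, `ι' t x = (x, 0)`).  StLIT: `HB 0 r f₂ g₂` with `f₂ '' (λ • range κ) = range κ`.  Compose (GRP (3)).
General `c`: `κ' = pc (-c) 1 κ` is a knot with `Kn κ' 0 R` (KNB (2): centre `-c + 1 • c`), `range κ' = tm (-c) 1 '' range κ`, `Eq1 Plane (range κ')` (EQV (5), `tm (-c) 1 '' Plane = Plane`).  Conjugate the result by `tm c 1` (GRP (5): centre `tm c 1 0 = (c, 0)`, radius `1 * r`). -/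
def StLOC : Prop := ∀ (n : ℕ), 2 ≤ n → ∀ (κ : EE n → WW n) (c : EE n) (R : ℝ), Kn κ c R →
  Eq1 (Plane n) (Set.range κ) → ∀ r : ℝ, R < r →
  ∃ f g : WW n → WW n, HB ((c, 0) : WW n) r f g ∧ f '' Plane n = Set.range κ

/-- DAT (about 100 lines): the data of the swindle.  Hypotheses: hCOM hLOC hKNB.
PROOF.  Choose any `a` with `4 * R / q < ‖a‖` (`n ≥ 1`); then `R + q * R ≤ 2 R < ‖a‖`, as `q ≤ 1` (`4 R / q ≥ 4 R`).  StCOM (from `(a₀, 1)`, `R + 1 * R < ‖a₀‖`) gives `Eq1 Plane` for `κ = su α (pc a q β)` and for `κ' = su β (pc a q α)`.  KNB (2), (4): `Kn κ ((1/2) • a) (‖a‖/2 + R)` (centres `0` and `a + q • 0`, radii `R`, `q * R`, `‖0 - (1/2) • a‖ = ‖a‖/2`,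
`‖a - (1/2) • a‖ = ‖a‖/2`, `q R ≤ R`), same for `κ'`.  StLOC with `r = ‖a‖/2 + 2 R`. -/
def StDAT : Prop := ∀ (n : ℕ), 2 ≤ n → ∀ (α β : EE n → WW n) (R : ℝ), Kn α 0 R → Kn β 0 R →
  (∃ a₀ : EE n, 2 * R < ‖a₀‖ ∧ Eq1 (Plane n) (Set.range (su α (pc a₀ 1 β)))) →
  ∀ q : ℝ, 0 < q → q ≤ 1 → ∃ (a : EE n) (f f' g g' : WW n → WW n), 4 * R / q < ‖a‖ ∧
    HB (((1 / 2 : ℝ) • a, 0) : WW n) (‖a‖ / 2 + 2 * R) f f' ∧
    f '' Plane n = Set.range (su α (pc a q β)) ∧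
    HB (((1 / 2 : ℝ) • a, 0) : WW n) (‖a‖ / 2 + 2 * R) g g' ∧
    g '' Plane n = Set.range (su β (pc a q α))

/-! ### Part C: the swindle -/

/-- SWG (about 200 lines): geometry of the balls `VV` and `DB`.
PROOF.  All centres are multiples of `a`: `ce a q k + (q^k/2) • a = m_k • a` with `m_k = Σ_{i<k} q^i + q^k/2`, increasing in `k`.  (1) `j + 2 ≤ k`: `m_k - m_j = q^j/2 + q^(j+1) + ⋯ + q^(k-1) + q^k/2` (for `k ≥ j+2`) `≥ q^j/2 + q^(j+1) + q^k/2` (for `k = j + 2` equality: `Σ_{i<j+2} - Σ_{i<j} = q^j + q^(j+1)`, minus `q^j/2`, plus `q^k/2`; for larger `k` there are more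
nonnegative terms).  The sum of the radii is `(q^j + q^k)(‖a‖/2 + 2R)`, so the difference (distance minus radii) is at least `q^(j+1) ‖a‖ - 2 R (q^j + q^k) ≥ q^j (q ‖a‖ - 4 R) > 0`.  A common point would violate the triangle inequality.
(2) `k ≥ 1`: `m_k ≥ 1 + q^k/2` and `q^k ≤ 1`: `m_k ‖a‖ - q^k (‖a‖/2 + 2R) ≥ ‖a‖ - 2 R > R`.  (3) `‖ce k - (ce k + (q^k/2) a)‖ = q^k ‖a‖/2`, plus `q^k R`; and `ce (k+1) = ce k + q^k a`, the distance is `q^k ‖a‖/2`, plus `q^(k+1) R ≤ q^k R`.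
(4) `j ≠ k`, say `j < k`: `‖ce k - ce j‖ ≥ q^j ‖a‖ > 2 q^j R ≥ (q^j + q^k) R`.  (5), (6): `ti`/`tm` computations; `Tk a q (k+1) w = Tk a q k (tm a q w)` and `Ti a q (k+1) w = ti a q (Ti a q k w)`: `ce (k+1) = ce k + q^k a`.
(7) if `w ∈ VV k` then `‖Ti w - ((1/2) a, 0)‖ ≤ ‖a‖/2 + 2R` and conversely.  (8) same for `DB`.  (9) `VV` is closed.  (10) for `q < 1` and `p = ((1 - q)⁻¹ • a, 0)`: `p - centre_k = (q^k/(1-q) - q^k/2) a = q^k ((1+q)/(2(1-q))) a`; so for `w ∈ VV k`: `‖w - p‖ ≥ q^k ((1+q)/(2(1-q)) ‖a‖ - ‖a‖/2 - 2R) = q^k ((q/(1-q)) ‖a‖ - 2R) ≥ q^k (q ‖a‖ - 2 R) ≥ q^k * 2 R`.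
(11) `w ∈ VV k`, `q < 1`: `‖w‖ ≤ m_k ‖a‖ + q^k (‖a‖/2 + 2R) ≤ ‖a‖/(1-q) + ‖a‖ + 2R` (`Σ_{i<k} q^i + q^k/2 ≤ 1/(1-q)`).  (12) `q = 1`: `‖w‖ ≥ m_k ‖a‖ - ‖a‖/2 - 2R ≥ k ‖a‖ - 2 R`. -/
def StSWG : Prop := ∀ (n : ℕ) (a : EE n) (q R : ℝ), 0 < R → 0 < q → q ≤ 1 → 4 * R / q < ‖a‖ →
  (∀ j k, j + 2 ≤ k → Disjoint (VV a q R j) (VV a q R k)) ∧
  (∀ k, 1 ≤ k → ∀ w ∈ VV a q R k, R < ‖w‖) ∧
  (∀ k, DB a q R k ⊆ VV a q R k ∧ DB a q R (k + 1) ⊆ VV a q R k) ∧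
  (∀ j k, j ≠ k → Disjoint (DB a q R j) (DB a q R k)) ∧
  (∀ k w, Ti a q k (Tk a q k w) = w ∧ Tk a q k (Ti a q k w) = w ∧
    (Ti a q k w).2 = (q ^ k)⁻¹ • w.2) ∧
  (∀ k w, Tk a q (k + 1) w = Tk a q k (tm a q w) ∧ Ti a q (k + 1) w = ti a q (Ti a q k w)) ∧
  (∀ k w, w ∈ VV a q R k ↔ ‖Ti a q k w - ((1 / 2 : ℝ) • a, 0)‖ ≤ ‖a‖ / 2 + 2 * R) ∧
  (∀ k w, (w ∈ DB a q R k ↔ ‖Ti a q k w‖ ≤ R) ∧
    (w ∈ DB a q R (k + 1) ↔ ‖Ti a q k w - (a, 0)‖ ≤ q * R)) ∧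
  (∀ k, IsClosed (VV a q R k)) ∧
  (q < 1 → ∀ k, ∀ w ∈ VV a q R k, q ^ k * (2 * R) ≤ ‖w - ((1 - q)⁻¹ • a, 0)‖) ∧
  (q < 1 → ∀ k, ∀ w ∈ VV a q R k, ‖w‖ ≤ (1 - q)⁻¹ * ‖a‖ + ‖a‖ + 2 * R) ∧
  (q = 1 → ∀ k, ∀ w ∈ VV a q R k, k * ‖a‖ - 2 * R ≤ ‖w‖)

/-- PRD (about 150 lines): products of diffeomorphisms with disjoint supports.
PROOF.  `f j` maps `V j` into itself: if `w ∈ V j` and `f j w ∉ V j` then `f j (f j w) = f j w`, so `f j w = w` (apply `g j`), a contradiction.  `g j w = w` for `w ∉ V j` (apply `g j` to `f j w = w`), and `g j` maps `V j` into itself in the same way.  Define `F w = f j w` if `w ∈ V j` for some (unique) `j`, `F w = w` otherwise (`if h : ∃ j, w ∈ V j then f h.choose w else w`), `G` in the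
same way with `g`.  Smoothness at `w`: let `O, N` be as in the hypothesis.  If `w ∈ V j` (then `j < N`): the set `O' = O ∩ ⋂_{i < N, i ≠ j} (V i)ᶜ` is open, contains `w`, and `F = f j` on `O'` (a point of `O'` is in `V j` or in no `V i`; in the second case `f j` fixes it).  If `w` is in no `V j`: `O' = O ∩ ⋂_{i < N} (V i)ᶜ`, and `F = id` on `O'`.
So `F` agrees near `w` with a map of the class; the same for `G` (`SD (g j) (f j)`: the symplectic property of `g j`, see GRP (4)). -/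
def StPRD : Prop := ∀ (n : ℕ) (f g : ℕ → WW n → WW n) (V : ℕ → Set (WW n)), (∀ j, SD (f j) (g j)) →
  (∀ j, IsClosed (V j)) → (∀ i j, i ≠ j → Disjoint (V i) (V j)) → (∀ j, ∀ w ∉ V j, f j w = w) →
  ∃ F G : WW n → WW n, (∀ w, G (F w) = w) ∧ (∀ w, F (G w) = w) ∧
    (∀ j, ∀ w ∈ V j, F w ∈ V j ∧ F w = f j w ∧ G w ∈ V j ∧ G w = g j w) ∧
    (∀ w, (∀ j, w ∉ V j) → F w = w ∧ G w = w) ∧
    ∀ (w : WW n) (O : Set (WW n)), IsOpen O → w ∈ O → (∃ N, ∀ j, N ≤ j → Disjoint O (V j)) →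
      ContDiffAt ℝ ∞ F w ∧ ContDiffAt ℝ ∞ G w ∧
      (∀ a b, om (fderiv ℝ F w a) (fderiv ℝ F w b) = om a b) ∧
      ∀ a b, om (fderiv ℝ G w a) (fderiv ℝ G w b) = om a b

/-- IP1 (about 120 lines): the infinite product for `q = 1` is a symplectic diffeomorphism.  Hypotheses: hSWG hPRD hGRP.
PROOF.  StPRD with `f j = Tk (2j+e) ∘ f ∘ Ti (2j+e)`, `g j` the same with `f'`, `V j = VV a 1 R (2j+e)`: `SD` and support from GRP (5), (6) (`HB` with centre `Tk (2j+e) ((1/2) a, 0) = (ce + (q^k/2) a, 0)` and radius `q^k (‖a‖/2 + 2R)`, `k = 2j+e`; `w ∉ V j` means radius `<` distance).  Disjointness: SWG (1) (the indices differ by at least 2; symmetric).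
Every `w` has a neighbourhood `O = ball 0 (‖w‖ + 1)` which meets only finitely many `V j`: SWG (12), `k ‖a‖ - 2R ≥ ‖w‖ + 1` for large `k` (`‖a‖ > 0`).  So `F, G` are smooth everywhere (`contDiff_iff_contDiffAt`). -/
def StIP1 : Prop := ∀ (n : ℕ) (a : EE n) (R : ℝ) (e : ℕ) (f f' : WW n → WW n), 0 < R →
  4 * R < ‖a‖ → HB (((1 / 2 : ℝ) • a, 0) : WW n) (‖a‖ / 2 + 2 * R) f f' →
  ∃ F Fi : WW n → WW n, IP a 1 R e f f' F Fi ∧ SD F Fi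

/-- IP2 (about 200 lines): the infinite product for `q < 1` is a homeomorphism, smooth and symplectic off the limit point.  Hypotheses: hSWG hPRD hGRP.
PROOF.  StPRD with the data of StIP1 (with `q`).  Put `p = ((1 - q)⁻¹ • a, 0)`.  For `w ≠ p` take `O = {w' | ‖w - p‖/2 < ‖w' - p‖}`: if `w' ∈ VV k` then by (6) below `‖w' - p‖` is small for large `k`: `w' ∈ VV k` gives `‖w' - p‖ ≤ q^k C` with `C = ((1+q)/(2(1-q)) ‖a‖ + ‖a‖/2 + 2R)` (formula for `p - centre_k` in SWG (10)), so `O` is disjoint from `VV k` for large `k`.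
So `F, Fi` are smooth and symplectic at `w ≠ p`.  `p ∉ VV k` by SWG (10) (`q^k 2R > 0`), so `F p = p = Fi p`.  Continuity at `p`: for every `w`, `‖F w - w‖ ≤ 2 q^k (‖a‖/2 + 2R)` if `w ∈ VV k` (`k = 2j+e`; both points are in the ball), `≤ ((‖a‖ + 4R)/(2R)) ‖w - p‖` by SWG (10), and `F w = w` otherwise; so `‖F w - p‖ ≤ C' ‖w - p‖`.  Same for `Fi`.
Support: `F w = w` if `‖w‖ > (1 - q)⁻¹ ‖a‖ + ‖a‖ + 2R` (SWG (11)); `Rb` = this number plus one. -/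
def StIP2 : Prop := ∀ (n : ℕ) (a : EE n) (q R : ℝ) (e : ℕ) (f f' : WW n → WW n), 0 < R → 0 < q →
  q < 1 → 4 * R / q < ‖a‖ → HB (((1 / 2 : ℝ) • a, 0) : WW n) (‖a‖ / 2 + 2 * R) f f' →
  ∃ F Fi : WW n → WW n, IP a q R e f f' F Fi ∧ Continuous F ∧ Continuous Fi ∧
    F ((1 - q)⁻¹ • a, 0) = ((1 - q)⁻¹ • a, 0) ∧
    (∀ w, (1 - q)⁻¹ * ‖a‖ + ‖a‖ + 2 * R + 1 ≤ ‖w‖ → F w = w ∧ Fi w = w) ∧
    ∀ w, w ≠ ((1 - q)⁻¹ • a, 0) → ContDiffAt ℝ ∞ F w ∧ ContDiffAt ℝ ∞ Fi w ∧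
      (∀ b c, om (fderiv ℝ F w b) (fderiv ℝ F w c) = om b c) ∧
      ∀ b c, om (fderiv ℝ Fi w b) (fderiv ℝ Fi w c) = om b c

/-- IP3 (about 150 lines): the infinite product for `q < 1` is a uniform limit of maps of the class `HB`.  Hypotheses: hSWG hGRP.
PROOF.  `f_j = Tk (2j+e) ∘ f ∘ Ti (2j+e)`, `f'_j` the same with `f'`; `HB` with the ball `VV (2j+e)` (GRP (5)), contained in the ball with centre `0` and radius `Rb = (1 - q)⁻¹ ‖a‖ + ‖a‖ + 2R + 1` (if `Rb ≤ ‖w‖` then `w ∉ VV k` by SWG (11); GRP (2)).  `F_N = f_0 ∘ ⋯ ∘ f_(N-1)`, `Fi_N = f'_(N-1) ∘ ⋯ ∘ f'_0`: `HB 0 Rb F_N Fi_N` by induction (GRP (3), (1)).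
By induction on `N` with the disjointness of the `V_j = VV (2j+e)` (each `f_j, f'_j` preserves `V_j` and fixes all points outside of it): `F_N w = f_j w = F w`, `Fi_N w = f'_j w = Fi w` for `w ∈ V_j`, `j < N`, and `F_N w = w = Fi_N w` for all other `w`.  So `‖F_N w - F w‖ ≤ 2 q^(2N+e) (‖a‖/2 + 2R)` for all `w` (`w ∈ V_j`, `j ≥ N`: `F w ∈ V_j`), the same for `Fi`. -/
def StIP3 : Prop := ∀ (n : ℕ) (a : EE n) (q R : ℝ) (e : ℕ) (f f' F Fi : WW n → WW n), 0 < R →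
  0 < q → q < 1 → 4 * R / q < ‖a‖ → HB (((1 / 2 : ℝ) • a, 0) : WW n) (‖a‖ / 2 + 2 * R) f f' →
  IP a q R e f f' F Fi → ∀ ε : ℝ, 0 < ε → ∃ φ ψ : WW n → WW n,
    HB (0 : WW n) ((1 - q)⁻¹ * ‖a‖ + ‖a‖ + 2 * R + 1) φ ψ ∧ (∀ w, ‖φ w - F w‖ < ε) ∧
    ∀ w, ‖ψ w - Fi w‖ < ε

/-- SWS (about 250 lines): the set computation of the swindle.  Hypotheses: hSWG hKNB.
PROOF.  Let `M w` be the predicate: (there is `k` with `w ∈ DB k` and `Ti k w ∈ range (if Even k then α else β)`) or (`w ∉ DB k` for all `k`, and `w.2 = 0`).  CLAIM 1: `(Fi w).2 = 0 ↔ M w`.  CLAIM 2: `Gi w ∈ range α ↔ M w`.  Since `F '' Plane = {w | (Fi w).2 = 0}` and `G '' range α = {w | Gi w ∈ range α}`, they are equal.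
CLAIM 1.  Let `w ∈ VV (2j)`, `u = Ti (2j) w`.  `Fi w = Tk (2j) (f' u)`, and `(Tk k v).2 = q^k • v.2`, so `(Fi w).2 = 0` iff `(f' u).2 = 0` iff `u ∈ f '' Plane = range (su α (pc a q β))` iff (KNB (5) with `c = 0`, `c' = a`, radii `R`, `q * R`, `R + q R < ‖a‖`; `Kn (pc a q β) a (q * R)` from KNB (2))
(`‖u‖ ≤ R`, `u ∈ range α`) or (`‖u - (a, 0)‖ ≤ q R`, `u ∈ range (pc a q β)`) or (both norms larger, `u.2 = 0`).  By SWG (8) `‖u‖ ≤ R` iff `w ∈ DB (2j)`, `‖u - (a,0)‖ ≤ q R` iff `w ∈ DB (2j+1)`; `u ∈ range (pc a q β) = tm a q '' range β` iff `ti a q u = Ti (2j+1) w ∈ range β` (SWG (6)); `u.2 = 0` iff `w.2 = 0`.  `w` is in no other `DB k`: `DB k ⊆ VV (2i)` for `i = k / 2` (SWG (3)), and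
`VV (2i)` is disjoint from `VV (2j)` for `i ≠ j`.  So this is `M w`.  If `w` is in no `VV (2j)`: `Fi w = w`, and `w` is in no `DB k`, so `(Fi w).2 = 0 ↔ w.2 = 0 ↔ M w`.
CLAIM 2.  Let `w ∈ VV (2j+1)`, `u = Ti (2j+1) w`.  `Gi w ∈ VV (2j+1)`, so `R < ‖Gi w‖` (SWG (2)) and `Gi w ∈ range α` iff `(Gi w).2 = 0` (KNB (6)) iff `(g' u).2 = 0` iff `u ∈ range (su β (pc a q α))`, and as before this is (`w ∈ DB (2j+1)`, `Ti (2j+1) w ∈ range β`) or (`w ∈ DB (2j+2)`, `Ti (2j+2) w ∈ range α`) or (`w` in neither of them, `w.2 = 0`); `w` is in no other `DB k`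
(`DB (2i+1), DB (2i+2) ⊆ VV (2i+1)`, and `DB 0` is disjoint by SWG (2), (8): `w ∈ DB 0` iff `‖w‖ ≤ R`, `Ti 0 w = w`).  If `w` is in no `VV (2j+1)`: `Gi w = w`, `w` is in no `DB k` with `k ≥ 1`; `w ∈ range α` iff (`‖w‖ ≤ R`, `w ∈ range α`) or (`R < ‖w‖`, `w.2 = 0`) by KNB (6), which is `M w`. -/
def StSWS : Prop := ∀ (n : ℕ) (α β : EE n → WW n) (R : ℝ), Kn α 0 R → Kn β 0 R →
  ∀ (a : EE n) (q : ℝ), 0 < q → q ≤ 1 → 4 * R / q < ‖a‖ →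
  ∀ f f' g g' F Fi G Gi : WW n → WW n, (∀ w, f' (f w) = w) → (∀ w, f (f' w) = w) →
  (∀ w, g' (g w) = w) → (∀ w, g (g' w) = w) →
  f '' Plane n = Set.range (su α (pc a q β)) → g '' Plane n = Set.range (su β (pc a q α)) →
  IP a q R 0 f f' F Fi → IP a q R 1 g g' G Gi → Gi '' (F '' Plane n) = Set.range α

/-- IN1 (about 60 lines): an invertible knot is the image of the plane under a symplectic diffeomorphism of `ℝ²ⁿ`.  Hypotheses: hDAT hIP1 hSWS hGRP.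
PROOF.  StDAT with `q = 1`, StIP1 for `(f, e = 0)` and for `(g, e = 1)` (`4 * R / 1 < ‖a‖`), StSWS.  `Ψ = Gi ∘ F`, `Ψi = Fi ∘ G`: `SD` (chain rule; `Gi` is symplectic as the inverse of `G`, compare GRP (4)). -/
def StIN1 : Prop := ∀ (n : ℕ), 2 ≤ n → ∀ L : Set (WW n), Inv L →
  ∃ Ψ Ψi : WW n → WW n, SD Ψ Ψi ∧ Ψ '' Plane n = L

/-- IN3 (about 200 lines): an invertible knot is the image of the plane under a homeomorphism which is a limit of Hamiltonian diffeomorphisms.  Hypotheses: hDAT hIP2 hIP3 hSWS hGRP hEQV.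
PROOF.  StDAT with `q = 1/2`, StIP2 and StIP3 for `(f, e = 0)` and for `(g, e = 1)`, StSWS.  `p = ((1 - 1/2)⁻¹ • a, 0)`, `R' = Rb` of StIP2, `Φ = Gi ∘ F`, `Φi = Fi ∘ G`.  For `w ≠ p`: `F w ≠ p` (`F p = p` and injectivity), so `Φ` is smooth and symplectic at `w` (chain rule, `ContDiffAt.comp`, `fderiv_comp`).
Approximation: `Gi` is uniformly continuous (continuous, and the identity for `‖w‖ ≥ R'`: `Gi - id` has compact support, `Continuous.uniformContinuous_of_hasCompactSupport` or `HasCompactSupport.uniformContinuous_of_continuous`), so is `Fi`.  Given `ε`, take `δ ≤ ε/2` for `Gi` and `Fi` with `ε/2`.  StIP3 for `F` with `δ`: `φ₁, ψ₁`; for `G` with `δ`: `φ₂, ψ₂`.  `h = ψ₂ ∘ φ₁`, `h⁻¹ = ψ₁ ∘ φ₂`: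
`HB 0 R' h h⁻¹` (GRP (3), (4)).  `‖h w - Φ w‖ ≤ ‖ψ₂ (φ₁ w) - Gi (φ₁ w)‖ + ‖Gi (φ₁ w) - Gi (F w)‖ < δ + ε/2 ≤ ε`, and in the same way `‖h⁻¹ u - Φi u‖ < ε` for all `u`; with `u = h w`: `‖w - Φi (h w)‖ < ε`.  EQV (6) turns `h` into `φ 1` for a Hamiltonian isotopy with `H t w = 0` for `R' ≤ ‖w‖`. -/
def StIN3 : Prop := ∀ (n : ℕ), 2 ≤ n → ∀ L : Set (WW n), Inv L →
  ∃ (Φ Φi : WW n → WW n) (p : WW n) (R : ℝ), Continuous Φ ∧ Continuous Φi ∧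
    (∀ w, Φi (Φ w) = w) ∧ (∀ w, Φ (Φi w) = w) ∧ (∀ w, R ≤ ‖w‖ → Φ w = w) ∧
    (∀ w, w ≠ p → ContDiffAt ℝ ∞ Φ w ∧
      ∀ a b, om (fderiv ℝ Φ w a) (fderiv ℝ Φ w b) = om a b) ∧
    Φ '' Plane n = L ∧
    ∀ ε : ℝ, 0 < ε → ∃ (H : ℝ → WW n → ℝ) (φ : ℝ → WW n → WW n), IsHamIsotopy H φ ∧
      (∀ t w, R ≤ ‖w‖ → H t w = 0) ∧ (∀ w, ‖φ 1 w - Φ w‖ < ε) ∧ ∀ w, ‖Φi (φ 1 w) - w‖ < ε

/-! ### Part D: from approximations to inverses -/

/-- SIN (about 120 lines): the inverse of a smooth map which is injective, with injective derivatives, on an open set.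
PROOF.  `fderiv ℝ W w` is injective, so an equivalence (finite dimension); inverse function theorem (`ContDiffAt.toOpenPartialHomeomorph`, `ContDiffAt.to_localInverse`, as in Helper98/LK/M_BIJ.lean).  `W '' U` is open (every point of it has a neighbourhood in it).  `Wi = Function.invFunOn W U`; near `W w` it agrees with the local inverse `s` (`s` is continuous, `s (W w) = w ∈ U`, so `s z ∈ U`
and `W (s z) = z` for `z` near `W w`, and injectivity on `U`), which is smooth at `W w`. -/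
def StSIN : Prop := ∀ (E : Type) [NormedAddCommGroup E] [NormedSpace ℝ E] [FiniteDimensional ℝ E]
  (W : E → E) (U : Set E), ContDiff ℝ ∞ W → IsOpen U → Set.InjOn W U →
  (∀ w ∈ U, ∀ a, fderiv ℝ W w a = 0 → a = 0) →
  IsOpen (W '' U) ∧ ∃ Wi : E → E, (∀ w ∈ U, Wi (W w) = w) ∧ ∀ w ∈ U, ContDiffAt ℝ ∞ Wi (W w)

/-- TUB (about 150 lines): a tubular map, symplectic along the plane.
PROOF.  `A x = fderiv ℝ ι x`, `A₁ = fst ∘ A x`, `A₂ = snd ∘ A x`, `G x = A₁† A₁ + A₂† A₂` (as in Helper34/LE/M_LAG.lean, StLAG (2)): smooth in `x`, `⟪G x u, v⟫ = ip (A x u) (A x v)`, invertible, `G x` symmetric, `P x = (G x)⁻¹` smooth (`ContinuousLinearMap.inverse`).  `F (x, y) = ι x + JJ (A x (P x y))`: smooth, `F (x, 0) = ι x`.  For `R < ‖x‖`: `ι = (·, 0)` near `x`, `A x u = (u, 0)`,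
`G x = id`, `F (x, y) = (x, 0) + JJ (y, 0) = (x, y)`.  Derivative at `(x, 0)`: `(u, v) ↦ A x u + JJ (A x (P x v))` (the derivative of `x ↦ A x (P x y)` is multiplied by `y = 0`).  With `b = P x v`, `b' = P x v'`: `om (A u + JJ (A b)) (A u' + JJ (A b')) = om (A u) (A u') + om (A u) (JJ (A b')) + om (JJ (A b)) (A u') + om (JJ (A b)) (JJ (A b'))
= 0 + ip (A u) (A b') - ip (A b) (A u') + 0 = ⟪u, G b'⟫ - ⟪G b, u'⟫ = ⟪u, v'⟫ - ⟪v, u'⟫ = om (u, v) (u', v')` (isotropy; `om_JJ_right`, `om_JJ_left`, `om_JJ_JJ` in Helper14/LK/Basic.lean). -/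
def StTUB : Prop := ∀ (n : ℕ) (ι : EE n → WW n) (R : ℝ), ContDiff ℝ ∞ ι → Isotropic ι →
  Immersive ι → (∀ x, R ≤ ‖x‖ → ι x = (x, 0)) →
  ∃ F : WW n → WW n, ContDiff ℝ ∞ F ∧ (∀ x, F (x, 0) = ι x) ∧ (∀ w, R < ‖w.1‖ → F w = w) ∧
    ∀ x a b, om (fderiv ℝ F (x, 0) a) (fderiv ℝ F (x, 0) b) = om a b

/-- PRI (about 200 lines): a primitive of `F^* ω - ω` which vanishes along the plane.  Hypothesis: hPOI.
PROOF.  `σ₀ w b = - ⟪(F w).2, (DF(w) b).1⟫ + ⟪w.2, b.1⟫`: smooth, and (as in StSIG, Helper51/LK/M_SIG.lean) `Dσ₀(w)[a] b = - ⟪(DF a).2, (DF b).1⟫ - ⟪(F w).2, (D²F(a,b)).1⟫ + ⟪a.2, b.1⟫`; antisymmetrize: `om (DF a) (DF b) - om a b`.  For `R < ‖w.1‖`: `F = id` near `w`, so `σ₀ w = 0`.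
`α x u = σ₀ (x, 0) (u, 0)` is a closed one-form on `EE n` (the antisymmetrization of its derivative is `om (DF (a,0)) (DF (b,0)) - om (a,0) (b,0) = 0` at `(x, 0)`), zero for `R + 1 ≤ ‖x‖`; StPOI (dimension `n ≥ 2`, constant in `t`) gives a smooth `g` with `Dg = α`, `g x = 0` for `R + 1 ≤ ‖x‖`.  `l x` = the vector with `⟪l x, v⟫ = σ₀ (x, 0) (0, v)` (Riesz), smooth, zero for `R < ‖x‖`.
`f₁ (x, y) = g x + ⟪l x, y⟫`: `Df₁(x, 0) (u, v) = α x u + ⟪l x, v⟫ = σ₀ (x, 0) (u, v)`.  `σ w = σ₀ w - fderiv ℝ f₁ w`: same antisymmetrized derivative (second derivatives of `f₁` are symmetric), `σ (x, 0) = 0`.  Let `R + 1 ≤ ‖w.1‖`: near `w` the function `l` vanishes, so `f₁ (x, y) = g x` near `w`, `Df₁(w) (u, v) = Dg(w.1) u = α (w.1) u = 0` and `σ₀ w = 0`. -/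
def StPRI : Prop := ∀ (n : ℕ), 2 ≤ n → ∀ (F : WW n → WW n) (R : ℝ), ContDiff ℝ ∞ F →
  (∀ w, R < ‖w.1‖ → F w = w) →
  (∀ x a b, om (fderiv ℝ F (x, 0) a) (fderiv ℝ F (x, 0) b) = om a b) →
  ∃ σ : WW n → (WW n →L[ℝ] ℝ), ContDiff ℝ ∞ σ ∧
    (∀ w a b, fderiv ℝ σ w a b - fderiv ℝ σ w b a =
      om (fderiv ℝ F w a) (fderiv ℝ F w b) - om a b) ∧
    (∀ x, σ (x, 0) = 0) ∧ ∀ w, R + 1 ≤ ‖w.1‖ → σ w = 0

/-- VFW (about 250 lines): Moser's vector field near the plane.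
PROOF.  `β = Real.smoothTransition`.  `B(r, w) : WW n →L[ℝ] (WW n →L[ℝ] ℝ)`, `B a b = (1 - r) om a b + r om (DF(w) a) (DF(w) b)`, smooth in `(r, w)` (`omL` in Helper14/LK/Basic.lean).  At `w = (x, 0)` and for `R ≤ ‖w.1‖` it is `om`, which is injective (`eq_of_om_eq`), hence invertible (equal finite dimensions; `WW n →L[ℝ] ℝ` has the dimension of `WW n`).  The set of `(r, w)` with `B(r, w)` invertible is open
(`ContinuousLinearEquiv.isOpen`); it contains the compact set `[0,1] × (closedBall 0 R ×ˢ {0})` (if `R < 0` this is empty), so it contains `[0,1] × {‖w.1‖ ≤ R, ‖w.2‖ ≤ δ}` for some `δ > 0` (`generalized_tube_lemma`, or a thickening of a compact set), and then `[0,1] × {‖w.2‖ ≤ δ}`.  `χ w = b (w.2)` with a `ContDiffBump` of radii `δ/2`, `3δ/4`.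
`V t w = - (χ w * deriv β t) • B(β t, w)⁻¹ (σ w)` (`ContinuousLinearMap.inverse`): smooth where `‖w.2‖ < δ` (`contDiffAt_map_inverse`; `β t ∈ [0,1]`), and zero near the points with `3δ/4 < ‖w.2‖`.  It vanishes if `t ∉ [0,1]` (`deriv β t = 0`), if `R ≤ ‖w.1‖` (`σ w = 0`), if `3δ/4 < ‖w.2‖`, so it has compact support; `V t (x, 0) = 0`.
For `‖w.2‖ < δ/2`: `B(β t, w) (V t w) = - deriv β t • σ w`, the last claim (with `δ/2` as the `δ` of the statement). -/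
def StVFW : Prop := ∀ (n : ℕ) (F : WW n → WW n) (σ : WW n → (WW n →L[ℝ] ℝ)) (R : ℝ),
  ContDiff ℝ ∞ F → ContDiff ℝ ∞ σ → (∀ w b, R ≤ ‖w.1‖ → fderiv ℝ F w b = b) →
  (∀ w, R ≤ ‖w.1‖ → σ w = 0) → (∀ x, σ (x, 0) = 0) →
  (∀ x a b, om (fderiv ℝ F (x, 0) a) (fderiv ℝ F (x, 0) b) = om a b) →
  ∃ (δ : ℝ) (β : ℝ → ℝ) (V : ℝ → WW n → WW n), 0 < δ ∧ ContDiff ℝ ∞ β ∧ β 0 = 0 ∧ β 1 = 1 ∧
    ContDiff ℝ ∞ (Function.uncurry V) ∧ HasCompactSupport (Function.uncurry V) ∧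
    (∀ t x, V t (x, 0) = 0) ∧ (∀ t w, R ≤ ‖w.1‖ → V t w = 0) ∧
    (∀ t w, t ∉ Set.Icc (0 : ℝ) 1 → V t w = 0) ∧
    ∀ t w b, ‖w.2‖ < δ → (1 - β t) * om (V t w) b +
      β t * om (fderiv ℝ F w (V t w)) (fderiv ℝ F w b) = - (deriv β t * σ w b)

/-- MOL (about 180 lines): Moser's identity along trajectories which stay in an open set.
PROOF.  The proof of StMOS (Helper39/LK/M_MOS.lean, copy and adapt it): fix `w` with `G s w ∈ U` for all `s`; the derivative of `Q(t) = (1 - β t) om (DG a) (DG b) + β t om (DF (DG a)) (DF (DG b))` is computed at the point `G t w ∈ U`, and only there (and, for the derivative in `w` of the equation for `V`, near it) the equation for `V` is used; `U` is open. -/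
def StMOL : Prop := ∀ (n : ℕ) (U : Set (WW n)), IsOpen U → ∀ (F : WW n → WW n)
  (σ : WW n → (WW n →L[ℝ] ℝ)) (β : ℝ → ℝ) (V G : ℝ → WW n → WW n), ContDiff ℝ ∞ F →
  ContDiff ℝ ∞ σ → ContDiff ℝ ∞ β → ContDiff ℝ ∞ (Function.uncurry V) →
  ContDiff ℝ ∞ (Function.uncurry G) → (∀ w, G 0 w = w) →
  (∀ t w, HasDerivAt (fun s => G s w) (V t (G t w)) t) →
  (∀ w a b, fderiv ℝ σ w a b - fderiv ℝ σ w b a =
    om (fderiv ℝ F w a) (fderiv ℝ F w b) - om a b) →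
  (∀ t, ∀ w ∈ U, ∀ b, (1 - β t) * om (V t w) b +
    β t * om (fderiv ℝ F w (V t w)) (fderiv ℝ F w b) = - (deriv β t * σ w b)) →
  β 0 = 0 → ∀ w, (∀ s, G s w ∈ U) → ∀ t a b,
    (1 - β t) * om (fderiv ℝ (G t) w a) (fderiv ℝ (G t) w b) +
    β t * om (fderiv ℝ F (G t w) (fderiv ℝ (G t) w a)) (fderiv ℝ F (G t w) (fderiv ℝ (G t) w b)) =
    om a b

/-- WE1 (about 200 lines): Weinstein neighbourhood, standard at infinity.  Hypotheses: hTUB hPRI hVFW hMOL hFLO.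
PROOF.  Put `R₀ = |R| + 1`.  StTUB (with `R`) gives `F`, StPRI gives `σ`, zero for `R + 1 ≤ ‖w.1‖`, hence for `R₀ + 1 ≤ ‖w.1‖`.  `R' = R₀ + 1`: for `R' ≤ ‖w.1‖`, `F = id` near `w`, so `fderiv ℝ F w b = b`.  StVFW (with `R'`) gives `δ₀, β, V`; StFLO gives the flow `G`, `Gi` of `V` (Lipschitz).  `G t (x, 0) = (x, 0)` and `G t w = w` for `R' ≤ ‖w.1‖` (constant curves, uniqueness).
For `t ∉ [0,1]` the field vanishes, so `G t w = G 0 w = w` for `t ≤ 0` and `G t w = G 1 w` for `t ≥ 1`.  The set `{(t, w) | ‖(G t w).2‖ < δ₀}` is open and contains the compact set `[0,1] × (closedBall 0 R' ×ˢ {0})`, so there is `δ > 0`, `δ ≤ δ₀`, such that `‖(G t w).2‖ < δ₀` for all `t ∈ [0,1]`, `‖w.1‖ ≤ R'`, `‖w.2‖ < δ`; together with the other remarks for all `t : ℝ` and all `w` with `‖w.2‖ < δ`.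
StMOL with `U = {‖w.2‖ < δ₀}` at `t = 1`: `W w = F (G 1 w)` satisfies `om (DW a) (DW b) = om a b` for `‖w.2‖ < δ` (chain rule).  `W (x, 0) = ι x`; `W w = F w = w` for `R' ≤ ‖w.1‖`. -/
def StWE1 : Prop := ∀ (n : ℕ), 2 ≤ n → ∀ (ι : EE n → WW n) (R : ℝ), ContDiff ℝ ∞ ι → Isotropic ι →
  Immersive ι → (∀ x, R ≤ ‖x‖ → ι x = (x, 0)) →
  ∃ (W : WW n → WW n) (R' δ : ℝ), 0 < δ ∧ 0 < R' ∧ R ≤ R' ∧ ContDiff ℝ ∞ W ∧
    (∀ x, W (x, 0) = ι x) ∧ (∀ w, R' ≤ ‖w.1‖ → W w = w) ∧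
    ∀ w, ‖w.2‖ < δ → ∀ a b, om (fderiv ℝ W w a) (fderiv ℝ W w b) = om a b

/-- WE2 (about 150 lines): injectivity near the plane.
PROOF.  `W` is bounded on the compact set `{‖w.1‖ ≤ R, ‖w.2‖ ≤ δ}` by `B`; `R₁ = |R| + |B| + 1`.  `K = closedBall 0 R₁ ×ˢ {0}` is compact, `W` is injective on `K`, and every point of `K` has a neighbourhood on which `W` is injective (inverse function theorem: the derivative at `(x, 0)` is injective, since `om (DW a) (DW b) = om a b` and `om` is nondegenerate).  Mathlib: `Set.InjOn.exists_mem_nhdsSet` (or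
`Set.InjOn.exists_isOpen_superset`) gives an open `O ⊇ K` with `W` injective on `O`; it contains `{‖w.1‖ ≤ R₁, ‖w.2‖ < δ'}` for some `0 < δ' ≤ δ` (tube lemma / thickening of a compact set).  Let `‖w.2‖, ‖w'.2‖ < δ'` and `W w = W w'`.  If `‖w.1‖, ‖w'.1‖ ≤ R₁`: equal.  Otherwise say `R₁ < ‖w'.1‖`, so `W w' = w'`; if `R ≤ ‖w.1‖` then `w = W w = w'`;
if `‖w.1‖ < R` then `‖w'‖ = ‖W w‖ ≤ B < R₁`, a contradiction. -/
def StWE2 : Prop := ∀ (n : ℕ) (ι : EE n → WW n) (W : WW n → WW n) (R δ : ℝ), 0 < δ →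
  ContDiff ℝ ∞ W → Function.Injective ι → (∀ x, W (x, 0) = ι x) → (∀ w, R ≤ ‖w.1‖ → W w = w) →
  (∀ w, ‖w.2‖ < δ → ∀ a b, om (fderiv ℝ W w a) (fderiv ℝ W w b) = om a b) →
  ∃ δ' : ℝ, 0 < δ' ∧ δ' ≤ δ ∧ Set.InjOn W {w | ‖w.2‖ < δ'}

/-- WE3 (about 100 lines): the image of `W` contains a neighbourhood of the knot of constant size.  Hypothesis: hSIN.
PROOF.  `U = {‖w.2‖ < δ}` is open, StSIN: `W '' U` is open.  It contains the compact set `W '' (closedBall 0 (|R| + 1) ×ˢ {0})`, so it contains the `ε₁`-neighbourhood of this set (`IsCompact.exists_thickening_subset_open`).  `ε = min ε₁ (min δ 1)`.  Let `‖w - ι x‖ < ε`.  If `‖x‖ ≤ |R| + 1` we are done.  Otherwise `ι x = W (x, 0) = (x, 0)`, `‖w.1 - x‖ < 1`, so `R ≤ ‖w.1‖`, `‖w.2‖ < δ` and `W w = w`: take `w' = w`. -/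
def StWE3 : Prop := ∀ (n : ℕ) (ι : EE n → WW n) (W : WW n → WW n) (R δ : ℝ), 0 < δ →
  ContDiff ℝ ∞ W → Set.InjOn W {w | ‖w.2‖ < δ} → (∀ x, W (x, 0) = ι x) →
  (∀ w, R ≤ ‖w.1‖ → W w = w) →
  (∀ w, ‖w.2‖ < δ → ∀ a b, om (fderiv ℝ W w a) (fderiv ℝ W w b) = om a b) →
  ∃ ε : ℝ, 0 < ε ∧ ∀ w, (∃ x, ‖w - ι x‖ < ε) → ∃ w', ‖w'.2‖ < δ ∧ W w' = w

/-- C2I (about 250 lines): a limit of unknots is invertible.  Hypotheses: hWE1 hWE2 hWE3 hSIN hIET hKNB hEQV.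
PROOF.  `StdInfty ι` with `R`.  StWE1 gives `W, R', δ₀`, StWE2 gives `δ ≤ δ₀`, StWE3 (with `R'`, `δ`) gives `ε`.  Take `κ` from the hypothesis for this `ε`.  StSIN with `U = {‖w.2‖ < δ}` gives `Wi`.  By WE3 every `κ x` is `W w'` with `w' ∈ U`, `w' = Wi (κ x) =: β x`.  So `W (β x) = κ x`, `‖(β x).2‖ < δ`; `β` is smooth (`ContDiffAt Wi (W (β x))`, and `W (β x) = κ x`), `DW (Dβ u) = Dκ u`: so `β` is isotropic (`W` is symplectic on `U`)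
and immersive; injective since `κ` is.  Standard at infinity: for large `‖x‖`, `κ x = (x, 0)` and `R' ≤ ‖x‖`, so `W (x, 0) = (x, 0) = W (β x)` and both points are in `U`: `β x = (x, 0)`.
KNB (1): `Kn ι 0 R''`, `Kn β 0 R''` with a common `R'' ≥ R'`.  Choose `a` with `‖a‖ = 2 R'' + R' + 1`, so `2 R'' < ‖a‖`.  `ι t x = W ((t • a, 0) + β (x - t • a))`: jointly smooth, the point `(t • a, 0) + β (x - t • a)` is in `U` (its second component is that of `β`), so `ι t` is isotropic, immersive, injective (`W` is injective on `U`), and for `t ∈ [0,1]`, `‖x‖ ≥ R'' + ‖a‖ + R'`: `β (…) = (x - t • a, 0)`, so `ι t x = W (x, 0) = (x, 0)`.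
StIET: `HamIsotopic (range (ι 0)) (range (ι 1))`.  `ι 0 = κ`.  `ι 1 = su ι (pc a 1 β)` (here the knot `ι` of the statement): `pc a 1 β x = (a, 0) + β (x - a)`; if `R'' ≤ ‖x - a‖` it is `(x, 0)` and both sides are `W (x, 0) = ι x`; if `‖x - a‖ ≤ R''` then the first component of `(a, 0) + β (x - a)` has norm at least `‖a‖ - R'' ≥ R'`, so `W` fixes it, and `ι x = (x, 0)` because `‖x‖ ≥ R''`.
`Eq1 Plane (range κ)` and `Eq1 (range κ) (range (su ι (pc a 1 β)))` (EQV (1), (4)); so `Inv (range ι)` with `α = ι`. -/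
def StC2I : Prop := ∀ (n : ℕ), 2 ≤ n → ∀ ι : EE n → WW n, ContDiff ℝ ∞ ι → Isotropic ι →
  Immersive ι → Function.Injective ι → StdInfty ι →
  (∀ ε : ℝ, 0 < ε → ∃ κ : EE n → WW n, ContDiff ℝ ∞ κ ∧ Isotropic κ ∧ Immersive κ ∧
    Function.Injective κ ∧ StdInfty κ ∧ HamIsotopic (Plane n) (Set.range κ) ∧
    ∀ x, ∃ x', ‖κ x - ι x'‖ < ε) → Inv (Set.range ι)

/-- S2C (about 200 lines): the image of the plane under a symplectic diffeomorphism of `ℝ²ⁿ` is a limit of unknots.  Hypotheses: hSIN hIET hKNB.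
PROOF.  `Ψ '' Plane = range ι`.  `θ x = (Ψi (ι x)).1`: smooth, `Ψi (ι x) = (θ x, 0)` (as `ι x ∈ Ψ '' Plane`), so `Ψ (θ x, 0) = ι x`.  `θ` is injective and surjective (`Ψ (x, 0) = ι x'` for some `x'`), its derivative is injective (`DΨ (Dθ u, 0) = Dι u`).  StSIN (`E = EE n`, `U = univ`) gives the smooth inverse `θi`; `θi` maps large vectors to large vectors (`θ` is bounded on balls).
`β x = Ψi (θi x, 0)`: smooth, isotropic, immersive, injective; for large `‖x‖`: `Ψ (x, 0) = ι (θi x) = (θi x, 0)`, so `β x = (x, 0)`: let `β x = (x, 0)` for `‖x‖ ≥ S`, `S > 0`, and let `B` bound `‖(β x).2‖` and `‖β x‖` for `‖x‖ ≤ S`.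
For `0 < λ ≤ 1` let `κ_λ x = Ψ (λ • β (λ⁻¹ • θ x))`.  `λ = 1`: `κ_1 x = Ψ (Ψi (θi (θ x), 0)) = (x, 0)`.  For all `λ ∈ (0, 1]`: smooth, isotropic, immersive, injective (composition of an isotropic embedding with symplectic diffeomorphisms and with the diffeomorphism `θ`), and if `‖θ x‖ ≥ S` then `λ • β (λ⁻¹ • θ x) = (θ x, 0)` (`‖λ⁻¹ • θ x‖ ≥ S`), `κ_λ x = Ψ (θ x, 0) = ι x`, so `κ_λ x = (x, 0)` if in addition `‖x‖` is large; uniformly in `λ`.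
Given `ε`: `Ψ` is uniformly continuous on the compact set `{‖w‖ ≤ S + B + 1}`: `δ > 0`.  Choose `λ` with `λ B < δ`.  `‖κ_λ x - ι x'‖ < ε`: put `z = λ • β (λ⁻¹ • θ x)`; if `‖λ⁻¹ • θ x‖ ≥ S` then `z = (θ x, 0)` and `κ_λ x = ι x`.  Otherwise `z` and `(z.1, 0)` are in the compact set and at distance `λ ‖(β …).2‖ ≤ λ B < δ`, so `‖κ_λ x - Ψ (z.1, 0)‖ < ε`, and `Ψ (z.1, 0) ∈ range ι`.
`HamIsotopic Plane (range κ_λ)`: StIET for the isotopy `t ↦ κ_(λ(t))`, `λ(t) = 1 - τ t + τ t * λ > 0`, `τ = smoothTransition` (jointly smooth; conditions for `t ∈ [0,1]`); `range (κ_1) = Plane`. -/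
def StS2C : Prop := ∀ (n : ℕ), 2 ≤ n → ∀ ι : EE n → WW n, ContDiff ℝ ∞ ι → Isotropic ι →
  Immersive ι → Function.Injective ι → StdInfty ι →
  ∀ Ψ Ψi : WW n → WW n, SD Ψ Ψi → Ψ '' Plane n = Set.range ι →
  ∀ ε : ℝ, 0 < ε → ∃ κ : EE n → WW n, ContDiff ℝ ∞ κ ∧ Isotropic κ ∧ Immersive κ ∧
    Function.Injective κ ∧ StdInfty κ ∧ HamIsotopic (Plane n) (Set.range κ) ∧
    ∀ x, ∃ x', ‖κ x - ι x'‖ < ε

/-- H2C (about 80 lines): the image of the plane under a limit of Hamiltonian diffeomorphisms is a limit of unknots.  Hypotheses: hHMS hGRP.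
PROOF.  Given `ε`, take `H, φ` with `‖φ 1 w - Φ w‖ < ε`, and `κ x = φ 1 (x, 0)`.  StHMS and GRP (6): `SD (φ 1) g` and `φ 1 w = w` for large `w`; so `κ` is smooth, isotropic (`Dκ u = Dφ (u, 0)`, `om (u, 0) (v, 0) = 0`), immersive (`Dg (Dφ (u, 0)) = (u, 0)`), injective, standard at infinity; `φ 1 '' Plane = range κ`.  `Φ (x, 0) ∈ range ι`. -/
def StH2C : Prop := ∀ (n : ℕ) (ι : EE n → WW n) (Φ : WW n → WW n), Φ '' Plane n = Set.range ι →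
  (∀ ε : ℝ, 0 < ε → ∃ (H : ℝ → WW n → ℝ) (φ : ℝ → WW n → WW n), IsHamIsotopy H φ ∧
    ∀ w, ‖φ 1 w - Φ w‖ < ε) →
  ∀ ε : ℝ, 0 < ε → ∃ κ : EE n → WW n, ContDiff ℝ ∞ κ ∧ Isotropic κ ∧ Immersive κ ∧
    Function.Injective κ ∧ StdInfty κ ∧ HamIsotopic (Plane n) (Set.range κ) ∧
    ∀ x, ∃ x', ‖κ x - ι x'‖ < ε

/-! ### Part E: knots with an embedded projection along a line -/

/-- LNF (about 200 lines): linear normal form of a line.
PROOF.  `e = (m, v)`, `v ≠ 0`.  There is a symmetric `A` with `A v = m`: `A x = (⟪v, x⟫ m + ⟪m, x⟫ v) / ‖v‖² - (⟪m, v⟫ ⟪v, x⟫ / ‖v‖⁴) v`.  `U` is a linear isometry of `EE (k+1)` with `U (‖v‖⁻¹ • v) = mk (0, 1)` (identity if they are equal, otherwise the reflection, as in Helper7/LE/M_NRL.lean).  `T (x, y) = (U (x - A y), U y)`, inverse `(x, y) ↦ (U⁻¹ x + A U⁻¹ y, U⁻¹ y)`: symplectic since `A` is symmetric and `U` is an isometry,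 and
`T (x, 0) = (U x, 0)`, `T e = (0, ‖v‖ mk (0, 1))`.  If `(T w).1 = 0` and `hd (T w).2 = 0` then `T w = (0, mk (0, l)) = (l / ‖v‖) • T e`, so `w = (l / ‖v‖) • e`. -/
def StLNF : Prop := ∀ (k : ℕ) (e : WW (k + 1)), e.2 ≠ 0 →
  ∃ (T : WW (k + 1) ≃L[ℝ] WW (k + 1)) (U : EE (k + 1) ≃ₗᵢ[ℝ] EE (k + 1)),
    (∀ a b, om (T a) (T b) = om a b) ∧ (∀ x, T (x, 0) = (U x, 0)) ∧
    ∀ w, (T w).1 = 0 → hd (T w).2 = 0 → w ∈ Submodule.span ℝ {e}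

/-- THE (about 250 lines): a parametrization adapted to the function `x_n`.  Hypotheses: hLAG hFLB.
PROOF.  `f x = lt (ι x).1` is smooth, `Df(x) ≠ 0` for all `x`: otherwise `lt (Dι(x) u).1 = 0` for all `u`, so `b = (0, mk (0, 1))` has `om b (Dι(x) u) = - ⟪mk (0,1), (Dι u).1⟫ = - lt (Dι u).1 = 0` for all `u` (`inner_eq` in Helper14/LE/Basic.lean), StLAG (1) gives `b = Dι(x) u₀`, and the hypothesis (`b.1 = 0`, `hd b.2 = 0`) gives `u₀ = 0`, `b = 0`, a contradiction.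
`v x = ∇f(x) / ‖∇f(x)‖²` (`∇f` = Riesz vector of `Df`, smooth, nonzero): smooth, `Df(x) (v x) = 1`.  For `R < ‖x‖`: `f = lt` near `x`, `∇f = mk (0, 1)`, `v x = mk (0, 1)`.  `v - mk (0,1)` has compact support, so `v` is Lipschitz; StFLB gives the flow `g s x`; it satisfies `g (s + r) x = g s (g r x)` (uniqueness) and `f (g s x) = f x + s`.
`R₁ = R + 1`.  (*) if `R₁ ≤ ‖x + mk (0, r)‖` for all `r` between `0` and `s` then `g s x = x + mk (0, s)` (this curve solves the equation on that interval; uniqueness of solutions, as in Helper14/LE/M_PRM.lean).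
`Θ x = g (lt x + R₁) (mk (hd x, - R₁))`.  `f (mk (hd x, - R₁)) = - R₁` (norm at least `R₁`), so `f (Θ x) = lt x`.  If `lt x ≤ - R₁` or `R₁ ≤ ‖hd x‖`: by (*) `Θ x = x` (`norm_hd_le`, `abs_lt_le`).
Inverse: `Θi y = mk (hd z, f y)`, `z = g (- (f y + R₁)) y`: `f z = - R₁`; if `‖z‖ ≤ R` then `|f z| ≤ ‖ι z‖ ≤ R < R₁` (Kn, `near`; `abs_lt_le`), impossible, so `R < ‖z‖`, `ι z = (z, 0)`, `lt z = - R₁`, `z = mk (hd z, - R₁)`, and `Θ (Θi y) = g (f y + R₁) z = y`.  `Θi (Θ x) = x`: `y = Θ x` has `f y = lt x`, `z = mk (hd x, - R₁)`.  Both are smooth. -/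
def StTHE : Prop := ∀ (k : ℕ) (ι : EE (k + 1) → WW (k + 1)) (R : ℝ), Kn ι 0 R →
  (∀ x u, (fderiv ℝ ι x u).1 = 0 → hd (fderiv ℝ ι x u).2 = 0 → u = 0) →
  ∃ Θ Θi : EE (k + 1) → EE (k + 1), ContDiff ℝ ∞ Θ ∧ ContDiff ℝ ∞ Θi ∧ (∀ x, Θi (Θ x) = x) ∧
    (∀ x, Θ (Θi x) = x) ∧ (∀ x, lt (ι (Θ x)).1 = lt x) ∧ (∀ x, lt x ≤ -(R + 1) → Θ x = x) ∧
    ∀ x, R + 1 ≤ ‖hd x‖ → Θ x = x

/-- DF1 (about 250 lines): the family of suspensions.
PROOF.  `J = ι ∘ Θ`: smooth, isotropic, `lt (J x).1 = lt x`; if `(DJ(x) u).1 = 0` and `hd (DJ(x) u).2 = 0` then `u = 0` (`DΘ` is injective: `Θi ∘ Θ = id`); `(J x).1 = (J x').1` and `hd (J x).2 = hd (J x').2` imply `x = x'`.  `J x = (x, 0)` if `lt x ≤ - R₁` or `R₁ ≤ ‖hd x‖` (`R₁ = R + 1`; then `Θ x = x` and `R₁ ≤ ‖x‖`).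
`s u = u * (2 * smoothTransition ((u + 1)/2) - 1)`: smooth, `s u = |u|` for `1 ≤ |u|`, `|s u| ≤ 1` for `|u| ≤ 1`.  `σ t c = t - s (c - t)`; it is `c` for `c ≤ t - 1` and `2 t - c` for `t + 1 ≤ c`, and `|σ t c - t| ≤ 1` for `|c - t| ≤ 1`.  `σ'` = derivative in `c`, jointly smooth.  With `t = T (2 r - 1)`, `x̃ = mk (hd x, σ t (lt x))`,
`D r x = (mk (hd (J x̃).1, lt x), mk (hd (J x̃).2, σ' t (lt x) * lt (J x̃).2))`.
Isotropic: with `ũ = mk (hd u, σ' * lt u)` (derivative of `x̃`), `D(D r)(x) u = (mk (hd (DJ ũ).1, lt u), mk (hd (DJ ũ).2, σ'' * lt u * lt (J x̃).2 + σ' * lt (DJ ũ).2))`.  `lt (DJ ũ).1 = lt ũ = σ' * lt u`.  By `inner_eq` (Helper14/LE/Basic.lean) `om (D u) (D v) = ⟪hd (DJũ).1, hd (DJṽ).2⟫ - ⟪hd (DJũ).2, hd (DJṽ).1⟫ + lt u (σ'' lt v Y + σ' lt (DJṽ).2) - (σ'' lt u Y + σ' lt (DJũ).2) lt v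
= ⟪…⟫ - ⟪…⟫ + lt (DJũ).1 * lt (DJṽ).2 - lt (DJũ).2 * lt (DJṽ).1 = om (DJ ũ) (DJ ṽ) = 0`.
Immersive: `D(D r)(x) u = 0` gives `lt u = 0`, then `ũ = mk (hd u, 0)`, `hd (DJ ũ).1 = 0`, `lt (DJ ũ).1 = 0`, `hd (DJ ũ).2 = 0`, so `ũ = 0`, `u = 0`.  Injective: `lt x = lt x'`, so `lt x̃ = lt x̃'`; `(J x̃).1 = (J x̃').1` (its `lt` is `lt x̃`) and `hd (J x̃).2 = hd (J x̃').2`, so `x̃ = x̃'`, `hd x = hd x'`.
Standard: for `r ∈ [0,1]`, `t ∈ [-T, T]`.  If `R₁ ≤ ‖hd x‖`, or `lt x ≤ - (T + 1 + R₁)` (then `σ = lt x`), or `2 T + R₁ + 1 + T ≤ lt x` (then `σ = 2t - lt x ≤ - R₁`): `J x̃ = (x̃, 0)`, `D r x = (mk (hd x, lt x), mk (0, 0)) = (x, 0)`.  `r = 0`: `t = - T`, `σ t c ≤ t + 1 = - T + 1 ≤ - R₁` for all `c`, as `T ≥ R + 2`; so `D 0 x = (x, 0)` for all `x`. -/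
def StDF1 : Prop := ∀ (k : ℕ) (ι : EE (k + 1) → WW (k + 1)) (R : ℝ), Kn ι 0 R →
  (∀ x u, (fderiv ℝ ι x u).1 = 0 → hd (fderiv ℝ ι x u).2 = 0 → u = 0) →
  (∀ x x', (ι x).1 = (ι x').1 → hd (ι x).2 = hd (ι x').2 → x = x') →
  ∀ Θ Θi : EE (k + 1) → EE (k + 1), ContDiff ℝ ∞ Θ → ContDiff ℝ ∞ Θi → (∀ x, Θi (Θ x) = x) →
    (∀ x, Θ (Θi x) = x) → (∀ x, lt (ι (Θ x)).1 = lt x) → (∀ x, lt x ≤ -(R + 1) → Θ x = x) →
    (∀ x, R + 1 ≤ ‖hd x‖ → Θ x = x) → ∀ T : ℝ, R + 2 ≤ T →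
  ∃ (D : ℝ → EE (k + 1) → WW (k + 1)) (σ : ℝ → ℝ) (R₂ : ℝ), ContDiff ℝ ∞ (Function.uncurry D) ∧
    (∀ r ∈ Set.Icc (0 : ℝ) 1, Isotropic (D r)) ∧ (∀ r ∈ Set.Icc (0 : ℝ) 1, Immersive (D r)) ∧
    (∀ r ∈ Set.Icc (0 : ℝ) 1, Function.Injective (D r)) ∧
    (∀ r ∈ Set.Icc (0 : ℝ) 1, ∀ x, R₂ ≤ ‖x‖ → D r x = (x, 0)) ∧ (∀ x, D 0 x = (x, 0)) ∧
    (∀ c, c ≤ T - 1 → σ c = c ∧ deriv σ c = 1) ∧ (∀ c, T + 1 ≤ c → σ c = 2 * T - c ∧ deriv σ c = -1) ∧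
    (∀ c, T - 1 ≤ c → c ≤ T + 1 → T - 1 ≤ σ c) ∧
    ∀ x, D 1 x = (mk (hd (ι (Θ (mk (hd x, σ (lt x))))).1, lt x),
      mk (hd (ι (Θ (mk (hd x, σ (lt x))))).2, deriv σ (lt x) * lt (ι (Θ (mk (hd x, σ (lt x))))).2))

/-- DF2 (about 200 lines): the image at the end of the family.
PROOF.  `J = ι ∘ Θ`, `range J = range ι`, `lt (J x).1 = lt x`.  (*) if `R < lt w.1` and `w ∈ range ι` then `w.2 = 0`, and conversely (`w = ι y`; if `‖y‖ ≤ R` then `|lt w.1| ≤ ‖ι y‖ ≤ R`; so `w = (y, 0)`; conversely `w = (y, 0)`, `‖y‖ ≥ |lt y| > R`, so `w = ι y`).  Note `T - 1 > R`.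
(⊆) let `c = lt x`, `x̃ = mk (hd x, σ c)`, `w = D x`; `lt w.1 = c`.  `c ≤ T - 1`: `x̃ = x`, `σ' = 1`, `w = J x` (components `hd`, `lt`; `lt (J x).1 = c`).  `T - 1 ≤ c ≤ T + 1`: `lt (J x̃).1 = σ c ≥ T - 1 > R`, so `(J x̃).2 = 0` by (*), `w.2 = 0`; then `w ∈ range ι` by (*) if `c ≤ T`, and `rf T w ∈ range ι` if `T ≤ c`: `(rf T w).2 = 0`, and either `lt (rf T w).1 = 2 T - c ≥ T - 1 > R`, use (*).
`T + 1 ≤ c`: `σ c = 2T - c`, `σ' = -1`, `rf T w = (mk (hd (J x̃).1, 2T - c), mk (hd (J x̃).2, lt (J x̃).2)) = J x̃`.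
(⊇) let `c = lt w.1`.  `c ≤ T - 1`, `w ∈ range ι`: `w = J x`, `lt x = c`, `D x = J x`.  `T - 1 ≤ c ≤ T + 1`: in both cases `w.2 = 0` by (*) (for `rf T w`: `lt (rf T w).1 = 2T - c ≥ T - 1`); the point `(mk (hd w.1, σ c), 0)` is in `range ι = range J` by (*), it is `J x'` with `lt x' = σ c`; `x = mk (hd x', c)` has `x̃ = x'` and `D x = (mk (hd w.1, c), mk (0, 0)) = w`.
`T + 1 ≤ c`: `rf T w = J x'`, `lt x' = 2T - c = σ c`, `x = mk (hd x', c)`, `x̃ = x'`, `D x = (mk (hd w.1, c), mk (hd w.2, - (- lt w.2))) = w`.  (At `c = T - 1, T + 1` both descriptions apply; in the case `T - 1 ≤ c ≤ T` of (⊇) use the hypothesis of `S` that holds.) -/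
def StDF2 : Prop := ∀ (k : ℕ) (ι : EE (k + 1) → WW (k + 1)) (R : ℝ), Kn ι 0 R →
  ∀ Θ : EE (k + 1) → EE (k + 1), Function.Surjective Θ → (∀ x, lt (ι (Θ x)).1 = lt x) →
  ∀ (T : ℝ) (σ σ' : ℝ → ℝ) (D : EE (k + 1) → WW (k + 1)), R + 2 ≤ T →
    (∀ c, c ≤ T - 1 → σ c = c ∧ σ' c = 1) → (∀ c, T + 1 ≤ c → σ c = 2 * T - c ∧ σ' c = -1) →
    (∀ c, T - 1 ≤ c → c ≤ T + 1 → T - 1 ≤ σ c) →
    (∀ x, D x = (mk (hd (ι (Θ (mk (hd x, σ (lt x))))).1, lt x),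
      mk (hd (ι (Θ (mk (hd x, σ (lt x))))).2, σ' (lt x) * lt (ι (Θ (mk (hd x, σ (lt x))))).2))) →
  ∀ w, w ∈ Set.range D ↔ (lt w.1 ≤ T ∧ w ∈ Set.range ι) ∨ (T ≤ lt w.1 ∧ rf T w ∈ Set.range ι)

/-- RNG (about 200 lines): the sum of a knot and its mirror image.
PROOF.  `mi ι x = rf 0 (ι (mk (hd x, -lt x)))`; `rf 0` is linear, symplectic (`inner_eq`) and preserves the norms of both components; `x ↦ mk (hd x, - lt x)` is a linear isometry.  So `Kn (mi ι) 0 R` (`rf 0 (mk (hd x, - lt x), 0) = (x, 0)`).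
Second claim: `β' = pc (mk (0, 2T)) 1 (mi ι)`, `β' x = (mk (0, 2T), 0) + mi ι (x - mk (0, 2T)) = rf T (ι (mk (hd x, 2T - lt x)))` (compute both components, `hd` and `lt`).  `lt x ≤ T`: `‖mk (hd x, 2T - lt x)‖ ≥ 2T - lt x ≥ T ≥ R`, so `β' x = (x, 0)` and `su ι β' x = ι x`; `lt (ι x).1 ≤ T` (`ι x = (x, 0)` or `‖ι x‖ ≤ R ≤ T`).  `T ≤ lt x`: `ι x = (x, 0)` and `su ι β' x = β' x`, `lt (β' x).1 = 2T - lt (ι (…)).1 ≥ T`
(as `lt (ι x').1 ≤ T` for `x' = mk (hd x, 2T - lt x)`, `lt x' ≤ T`), `rf T (β' x) = ι x'` (`rf T ∘ rf T = id`).  (⊆) is clear.  (⊇): `w = ι x`, `lt w.1 ≤ T`: if `T < lt x` then `w = (x, 0)`, `lt w.1 = lt x > T`; so `lt x ≤ T`, `w = su ι β' x`.  If `T ≤ lt w.1`, `rf T w = ι x'`: `lt (ι x').1 = 2T - lt w.1 ≤ T`, so `lt x' ≤ T` in the same way; `x = mk (hd x', 2T - lt x')` has `T ≤ lt x`, and `β' x = rf T (ι x') = w`. -/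
def StRNG : Prop := ∀ (k : ℕ) (ι : EE (k + 1) → WW (k + 1)) (R : ℝ), Kn ι 0 R → Kn (mi ι) 0 R ∧
  ∀ T : ℝ, R + 2 ≤ T → ∀ w, w ∈ Set.range (su ι (pc (mk (0, 2 * T)) 1 (mi ι))) ↔
    (lt w.1 ≤ T ∧ w ∈ Set.range ι) ∨ (T ≤ lt w.1 ∧ rf T w ∈ Set.range ι)

/-- LIN (about 80 lines): the projection along the `y_n` axis.  Hypotheses: hTHE hDF1 hDF2 hRNG hIET hEQV.
PROOF.  StTHE, StDF1 (`T = R + 2`), StDF2 (`σ' = deriv σ`, `D = D 1`), StRNG: `range (D 1) = range (su ι (pc (mk (0, 2T)) 1 (mi ι)))`.  `range (D 0) = Plane`.  StIET (`k + 1 ≥ 2`), EQV (1).  `2 * R < 2 * T = ‖mk (0, 2T)‖` (`norm_sq_eq`). -/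
def StLIN : Prop := ∀ (k : ℕ), 1 ≤ k → ∀ (ι : EE (k + 1) → WW (k + 1)) (R : ℝ), Kn ι 0 R →
  (∀ x u, (fderiv ℝ ι x u).1 = 0 → hd (fderiv ℝ ι x u).2 = 0 → u = 0) →
  (∀ x x', (ι x).1 = (ι x').1 → hd (ι x).2 = hd (ι x').2 → x = x') →
  Kn (mi ι) 0 R ∧ 2 * R < ‖(mk (0, 2 * (R + 2)) : EE (k + 1))‖ ∧
    Eq1 (Plane (k + 1)) (Set.range (su ι (pc (mk (0, 2 * (R + 2))) 1 (mi ι))))

/-- LI2 (about 200 lines): the projection along any line.  Hypotheses: hLIN hLNF hCOM hKNB hEQV.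
PROOF.  Write `n = k + 1`.  `e.2 ≠ 0`: otherwise take `x` with `‖x‖` larger than the radius in StdInfty; `fderiv ℝ ι x e.1 = (e.1, 0) = e` is in the span, so `e.1 = 0` by hypothesis and `e = 0`, a contradiction.  `ι` is immersive and injective since `0` is in the span.  StLNF gives `T, U`.  `ι' x = T (ι (U⁻¹ x))`: smooth, isotropic, immersive, injective, standard at infinity (`T (U⁻¹ x, 0) = (x, 0)`); KNB (1): `Kn ι' 0 R`
for some `R`.  The two hypotheses of StLIN hold: `D ι'(x) u = T (Dι (U⁻¹ u))`, so `Dι (U⁻¹ u) ∈ span {e}` by StLNF; and `(ι' x).1 = (ι' x').1`, `hd (ι' x).2 = hd (ι' x').2` gives `T (ι (U⁻¹ x) - ι (U⁻¹ x'))` with first component `0` and `hd` of the second `0`.  StLIN: with `β' = mi ι'`, `a' = mk (0, 2(R+2))`: `Eq1 Plane (range (su ι' (pc a' 1 β')))`.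
`α = ι`, `β x = T⁻¹ (β' (U x))`: `β` is smooth, isotropic, immersive, injective, standard at infinity, so `Kn α 0 R₁` and `Kn β 0 R₁` for some `R₁ ≥ R` (KNB (1)).  StCOM: `Eq1 Plane (range (su ι' (pc a'' 1 β')))` for `a''` with `‖a''‖ > 2 R₁ + 2 R`.  Pointwise `T⁻¹ (su ι' (pc a'' 1 β') (U x)) = su ι (pc (U⁻¹ a'') 1 β) x` (linearity of `T⁻¹`, `T⁻¹ (U x, 0) = (x, 0)`), and `T⁻¹ '' Plane = Plane`.  EQV (8) with `M = T⁻¹`
gives `Eq1 Plane (range (su ι (pc (U⁻¹ a'') 1 β)))`, and `‖U⁻¹ a''‖ = ‖a''‖ > 2 R₁`. -/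
def StLI2 : Prop := ∀ (n : ℕ), 2 ≤ n → ∀ (e : WW n), e ≠ 0 → ∀ ι : EE n → WW n, ContDiff ℝ ∞ ι →
  Isotropic ι → StdInfty ι →
  (∀ x u, fderiv ℝ ι x u ∈ Submodule.span ℝ {e} → u = 0) →
  (∀ x x', ι x - ι x' ∈ Submodule.span ℝ {e} → x = x') → Inv (Set.range ι)

end Pool.Agent.Helper49.LC
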